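import Pool.Agent.Helper76.OV.S4
import Pool.Agent.Helper92.GC.G4

/-!
# DT-O4: the sum over the vectors of a class, exponent 12
-/

open MeasureTheory Real Set Filter Topology

set_option autoImplicit false

namespace Pool.Agent.Helper92.DT

open Pool.Agent.Helper22.AE
open Pool.Agent.Helper92.GC
open Pool.Agent.Helper76.OV

/-- the range of the curvature parameter -/
private lemma range57 {c₁ B : ℝ} (hc : 0 < c₁) {φ : ℝ → ℝ} (hφ : Cn c₁ B φ) {P R : ℝ} (hP : 1 ≤ P) (hR : 0 < R)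
    {n : ℤ × ℤ} (hn : Good P n) :
    c₁ * R / (2 * P ^ 3) ≤ Rq φ R n ∧ Rq φ R n ≤ 4 * B * R / P ^ 3 := by
  obtain ⟨s0, s1⟩ := sl_range hn.nonneg hn.le
  have hs : |sl n| ≤ 2 := by
    rw [abs_le]
    constructor
    · linarith
    · linarith
  have l1 := hφ.lo _ hs
  have l2 := (abs_le.1 (hφ.h2 _ hs)).2
  have h2 := hn.lo
  have h3 := hn.hi
  have hn0 : (0 : ℝ) < n.1 := by linarith
  have hn3 : (n.1 : ℝ) ^ 3 ≤ P ^ 3 := pow_le_pow_left₀ hn0.le h3 3
  have hn4 : (P / 2) ^ 3 ≤ (n.1 : ℝ) ^ 3 := pow_le_pow_left₀ (by linarith) h2.le 3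
  have hB : 0 < B := by linarith
  unfold Rq
  constructor
  · calc c₁ * R / (2 * P ^ 3) ≤ c₁ * R / (2 * (n.1 : ℝ) ^ 3) :=
          div_le_div_of_nonneg_left (by positivity) (by positivity) (by linarith)
      _ ≤ R * f2 φ (sl n) / (2 * (n.1 : ℝ) ^ 3) := by
          refine div_le_div_of_nonneg_right ?_ (by positivity)
          rw [mul_comm c₁ R]
          exact mul_le_mul_of_nonneg_left l1 hR.le
  · calc R * f2 φ (sl n) / (2 * (n.1 : ℝ) ^ 3) ≤ R * B / (2 * (n.1 : ℝ) ^ 3) := by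
          refine div_le_div_of_nonneg_right ?_ (by positivity)
          exact mul_le_mul_of_nonneg_left l2 hR.le
      _ ≤ R * B / (2 * (P / 2) ^ 3) :=
          div_le_div_of_nonneg_left (by positivity) (by positivity) (by linarith)
      _ = 4 * B * R / P ^ 3 := by
          field_simp
          norm_num

/-- close curvature parameters -/
private lemma close57 {φ : ℝ → ℝ} {P R δ C₀ : ℝ} (hP : 1 ≤ P) (hR : 0 < R) (hδ : δ * P ^ 4 ≤ C₀ * R)
    {n m : ℤ × ℤ} (h : |Rq φ R n - Rq φ R m| ≤ δ) : |Rq φ 1 n - Rq φ 1 m| ≤ C₀ / P ^ 4 := by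
  have e : ∀ k : ℤ × ℤ, Rq φ R k = R * Rq φ 1 k := by
    intro k
    unfold Rq
    ring
  rw [e n, e m, ← mul_sub, abs_mul, abs_of_pos hR] at h
  rw [le_div_iff₀ (by positivity)]
  have h1 : R * |Rq φ 1 n - Rq φ 1 m| * P ^ 4 ≤ C₀ * R :=
    le_trans (mul_le_mul_of_nonneg_right h (by positivity)) hδ
  have h2 : |Rq φ 1 n - Rq φ 1 m| * P ^ 4 * R ≤ C₀ * R := by
    calc |Rq φ 1 n - Rq φ 1 m| * P ^ 4 * R = R * |Rq φ 1 n - Rq φ 1 m| * P ^ 4 := by ring
      _ ≤ _ := h1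
  exact le_of_mul_le_mul_right h2 hR

private lemma one_le57 {P : ℝ} (hP : 1 ≤ P) {n : ℤ × ℤ} (h : Good P n) : 1 ≤ n.1 := by
  have h1 := h.lo
  have h2 : (0 : ℝ) < n.1 := by linarith
  have h3 : 0 < n.1 := by exact_mod_cast h2
  omega

private lemma holder57 {W : Finset (ℤ × ℤ)} {s : ℤ × ℤ → ℝ} (hs : ∀ n ∈ W, 0 ≤ s n) :
    (∑ n ∈ W, s n) ^ 12 ≤ (W.card : ℝ) ^ 10 * (∑ n ∈ W, s n ^ 6) ^ 2 := by
  rcases W.eq_empty_or_nonempty with h | h
  · subst h
    simp
  · have hc : (0 : ℝ) < W.card := by exact_mod_cast h.card_pos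
    have h1 := pow_sum_div_card_le_sum_pow hs 5
    rw [div_le_iff₀ (by positivity)] at h1
    have h2 : 0 ≤ ∑ n ∈ W, s n := Finset.sum_nonneg hs
    calc (∑ n ∈ W, s n) ^ 12 = ((∑ n ∈ W, s n) ^ (5 + 1)) ^ 2 := by ring
      _ ≤ ((∑ n ∈ W, s n ^ (5 + 1)) * (W.card : ℝ) ^ 5) ^ 2 :=
          pow_le_pow_left₀ (by positivity) h1 2
      _ = _ := by ring

/-- grouping by a key: if `s⁶ ≤ √H` of the key -/
private lemma group57 {K : Type*} [DecidableEq K] (W : Finset (ℤ × ℤ)) (key : ℤ × ℤ → K) {s : ℤ × ℤ → ℝ}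
    (hs : ∀ n ∈ W, 0 ≤ s n) {H : K → ℝ} (hH : ∀ n ∈ W, s n ^ 12 ≤ H (key n)) :
    (∑ n ∈ W, s n ^ 6) ^ 2 ≤ (((W ×ˢ W).filter (fun w => key w.1 = key w.2)).card : ℝ) *
      ∑ g ∈ W.image key, H g := by
  have hH0 : ∀ g ∈ W.image key, 0 ≤ H g := by
    intro g hg
    rw [Finset.mem_image] at hg
    obtain ⟨n, hn, rfl⟩ := hg
    have := hs n hn
    exact le_trans (by positivity) (hH n hn)
  have h1 : ∑ n ∈ W, s n ^ 6 ≤ ∑ g ∈ W.image key, ((W.filter (fun n => key n = g)).card : ℝ) * √(H g) := by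
    rw [← Finset.sum_fiberwise_of_maps_to (s := W) (t := W.image key) (g := key)
      (fun n hn => Finset.mem_image_of_mem key hn)]
    refine Finset.sum_le_sum fun g hg => ?_
    rw [← nsmul_eq_mul]
    refine Finset.sum_le_card_nsmul _ _ _ fun n hn => ?_
    rw [Finset.mem_filter] at hn
    have a1 := hH n hn.1
    rw [hn.2] at a1
    refine Real.le_sqrt_of_sq_le ?_
    calc (s n ^ 6) ^ 2 = s n ^ 12 := by ring
      _ ≤ _ := a1
  have h2 : 0 ≤ ∑ n ∈ W, s n ^ 6 := Finset.sum_nonneg fun n hn => by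
    have := hs n hn
    positivity
  have h3 := Finset.sum_mul_sq_le_sq_mul_sq (W.image key)
    (fun g => ((W.filter (fun n => key n = g)).card : ℝ)) (fun g => √(H g))
  have h4 : ∑ g ∈ W.image key, √(H g) ^ 2 = ∑ g ∈ W.image key, H g :=
    Finset.sum_congr rfl fun g hg => Real.sq_sqrt (hH0 g hg)
  have h5 : ∑ g ∈ W.image key, ((W.filter (fun n => key n = g)).card : ℝ) ^ 2 =
      (((W ×ˢ W).filter (fun w => key w.1 = key w.2)).card : ℝ) := by
    rw [Finset.card_eq_sum_card_fiberwise (f := fun w : (ℤ × ℤ) × (ℤ × ℤ) => key w.1) (t := W.image key)]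
    · push_cast
      refine Finset.sum_congr rfl fun g hg => ?_
      have e1 : (((W ×ˢ W).filter (fun w => key w.1 = key w.2)).filter (fun w => key w.1 = g)) =
          (W.filter (fun n => key n = g)) ×ˢ (W.filter (fun n => key n = g)) := by
        ext w
        simp only [Finset.mem_filter, Finset.mem_product]
        constructor
        · rintro ⟨⟨⟨b1, b2⟩, b3⟩, b4⟩
          exact ⟨⟨b1, b4⟩, ⟨b2, by rw [← b3, b4]⟩⟩
        · rintro ⟨⟨b1, b2⟩, ⟨b3, b4⟩⟩
          exact ⟨⟨⟨b1, b3⟩, by rw [b2, b4]⟩, b2⟩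
      rw [e1, Finset.card_product]
      push_cast
      ring
    · intro w hw
      rw [Finset.mem_coe, Finset.mem_filter, Finset.mem_product] at hw
      exact Finset.mem_image_of_mem key hw.1.1
  rw [h4, h5] at h3
  exact (pow_le_pow_left₀ h2 h1 2).trans h3

/-- the cells of the first coordinate -/
private def cell57 (δ : ℝ) (m : ℤ) : Set ℝ := Ico ((m : ℝ) * δ) (((m : ℝ) + 1) * δ)

private lemma cellint57 {δ : ℝ} (hδ : 0 < δ) {f : ℝ → ℝ} (hf : Continuous f) {c : ℝ} (m : ℤ)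
    (h : ∀ r ∈ cell57 δ m, c ≤ f r) : c ≤ 1 / δ * ∫ r in cell57 δ m, f r := by
  have hv : volume.real (cell57 δ m) = δ := by
    unfold cell57
    rw [Real.volume_real_Ico_of_le (by nlinarith)]
    ring
  have hint : IntegrableOn f (cell57 δ m) :=
    (hf.integrableOn_Icc (a := (m : ℝ) * δ) (b := ((m : ℝ) + 1) * δ)).mono_set Ico_subset_Icc_self
  have h1 := setIntegral_ge_of_const_le_real (μ := volume) (s := cell57 δ m) measurableSet_Ico
    (by unfold cell57; rw [Real.volume_Ico]; exact ENNReal.ofReal_ne_top) h hint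
  rw [hv] at h1
  rw [one_div, ← div_eq_inv_mul, le_div_iff₀ hδ]
  exact h1

private lemma cellsum57 {δ : ℝ} (hδ : 0 < δ) {f : ℝ → ℝ} (hf : Continuous f) (hf0 : ∀ r, 0 ≤ f r)
    {x y : ℝ} (T : Finset ℤ) (hT : ∀ m ∈ T, cell57 δ m ⊆ Icc x y) :
    ∑ m ∈ T, ∫ r in cell57 δ m, f r ≤ ∫ r in Icc x y, f r := by
  rw [← integral_biUnion_finset T (s := cell57 δ) (fun m _ => measurableSet_Ico)]
  · refine setIntegral_mono_set hf.integrableOn_Icc ?_ ?_
    · exact Eventually.of_forall hf0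
    · exact (iUnion₂_subset hT).eventuallyLE
  · intro m _ m' _ hmm
    change Disjoint (cell57 δ m) (cell57 δ m')
    rw [Set.disjoint_left]
    intro r hr hr'
    apply hmm
    unfold cell57 at hr hr'
    rw [mem_Ico] at hr hr'
    have h1 : (m : ℝ) < (m' : ℝ) + 1 := by
      have := lt_of_le_of_lt hr.1 hr'.2
      exact lt_of_mul_lt_mul_right this hδ.le
    have h2 : (m' : ℝ) < (m : ℝ) + 1 := by
      have := lt_of_le_of_lt hr'.1 hr.2
      exact lt_of_mul_lt_mul_right this hδ.le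
    have h3 : m < m' + 1 := by exact_mod_cast h1
    have h4 : m' < m + 1 := by exact_mod_cast h2
    omega
  · intro m _
    exact (hf.integrableOn_Icc (a := (m : ℝ) * δ) (b := ((m : ℝ) + 1) * δ)).mono_set Ico_subset_Icc_self

/-- the sum over the vectors of a class, two parameters -/
theorem class_sum12 {c₁ B : ℝ} (hc : 0 < c₁) (hB : 1 ≤ B) (C₀ : ℝ) : ∃ C : ℝ, 0 < C ∧ ∀ φ : ℝ → ℝ, Cn c₁ B φ →
    ∀ P R δ₁ δ₂ b₁ : ℝ, 1 ≤ P → 0 < R → 0 < δ₁ → 0 < δ₂ → δ₁ * P ^ 4 ≤ C₀ * R →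
    δ₂ ≤ 1 / P → δ₂ ≤ 1 / 200 → ∀ G : ℝ → ℝ → ℝ, Continuous (Function.uncurry G) → (∀ r b, 0 ≤ G r b) →
      ∀ s : ℤ × ℤ → ℝ, (∀ n, Good P n → 0 ≤ s n) →
        (∀ n, Good P n → |bq φ n - b₁| ≤ 1 / 100 → ∀ r b, |Rq φ R n - r| ≤ δ₁ → |bq φ n - b| ≤ δ₂ → s n ^ 12 ≤ G r b) →
          ∀ W : Finset (ℤ × ℤ), (∀ n ∈ W, Good P n ∧ |bq φ n - b₁| ≤ 1 / 100) →
            (∑ n ∈ W, s n) ^ 12 ≤ C * P ^ 22 * (1 / δ₂ * ∫ b in Icc (b₁ - 1 / 60) (b₁ + 1 / 60),
              1 / δ₁ * ∫ r in Icc (c₁ * R / (2 * P ^ 3) - δ₁) (4 * B * R / P ^ 3 + δ₁), G r b) := by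
  classical
  obtain ⟨C₂, hC₂, hsp⟩ := spacing hc hB C₀
  refine ⟨3 ^ 10 * C₂, by positivity, ?_⟩
  intro φ hφ P R δ₁ δ₂ b₁ hP hR hδ₁ hδ₂ hδC hδP hδ₂' G hG hG0 s hs hsG W hW
  have hGr : ∀ b, Continuous (fun r => G r b) := fun b =>
    hG.comp (show Continuous (fun r : ℝ => ((r, b) : ℝ × ℝ)) by fun_prop)
  set key : ℤ × ℤ → ℤ × ℤ := fun n => (⌊Rq φ R n / δ₁⌋, ⌊bq φ n / δ₂⌋) with hkey
  set F : ℤ → ℝ → ℝ := fun m b => 1 / δ₁ * ∫ r in cell57 δ₁ m, G r b with hFdef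
  set H : ℤ × ℤ → ℝ := fun g => 1 / δ₂ * ∫ b in cell57 δ₂ g.2, F g.1 b with hHdef
  have hcellg : ∀ (δ x : ℝ), 0 < δ → x ∈ cell57 δ ⌊x / δ⌋ := by
    intro δ x hδ
    unfold cell57
    rw [mem_Ico]
    constructor
    · have := mul_le_mul_of_nonneg_right (Int.floor_le (x / δ)) hδ.le
      rwa [div_mul_cancel₀ _ hδ.ne'] at this
    · have := mul_lt_mul_of_pos_right (Int.lt_floor_add_one (x / δ)) hδ
      rwa [div_mul_cancel₀ _ hδ.ne'] at this
  have hcell : ∀ n, Rq φ R n ∈ cell57 δ₁ ⌊Rq φ R n / δ₁⌋ := fun n => hcellg _ _ hδ₁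
  have hcell2 : ∀ n, bq φ n ∈ cell57 δ₂ ⌊bq φ n / δ₂⌋ := fun n => hcellg _ _ hδ₂
  have hdist : ∀ (δ : ℝ) (m : ℤ) (r r' : ℝ), r ∈ cell57 δ m → r' ∈ cell57 δ m → |r - r'| ≤ δ := by
    intro δ m r r' hr hr'
    unfold cell57 at hr hr'
    rw [mem_Ico] at hr hr'
    rw [abs_le]
    constructor
    · linarith
    · linarith
  have hIco : ∀ (m : ℤ) (b : ℝ), ∫ r in cell57 δ₁ m, G r b = ∫ r in Icc ((m : ℝ) * δ₁) (((m : ℝ) + 1) * δ₁), G r b := by
    intro m b
    unfold cell57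
    rw [integral_Icc_eq_integral_Ico]
  have hFc : ∀ m, Continuous (F m) := by
    intro m
    have h1 : F m = fun b => 1 / δ₁ * ∫ r in Icc ((m : ℝ) * δ₁) (((m : ℝ) + 1) * δ₁), G r b := by
      funext b
      rw [hFdef]
      simp only [hIco]
    rw [h1]
    refine continuous_const.mul ?_
    exact continuous_parametric_integral_of_continuous (f := fun (b r : ℝ) => G r b)
      (hG.comp (show Continuous (fun q : ℝ × ℝ => ((q.2, q.1) : ℝ × ℝ)) by fun_prop)) isCompact_Icc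
  have hF0 : ∀ m b, 0 ≤ F m b := by
    intro m b
    refine mul_nonneg (by positivity) (integral_nonneg fun r => hG0 r b)
  have hH : ∀ n ∈ W, s n ^ 12 ≤ H (key n) := by
    intro n hn
    obtain ⟨hg, hg2⟩ := hW n hn
    refine cellint57 hδ₂ (hFc _) _ fun b hb => ?_
    refine cellint57 hδ₁ (hGr b) _ fun r hr => ?_
    exact hsG n hg hg2 r b (hdist _ _ _ _ (hcell n) hr) (hdist _ _ _ _ (hcell2 n) hb)
  have hs' : ∀ n ∈ W, 0 ≤ s n := fun n hn => hs n (hW n hn).1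
  -- the number of pairs in the same cell
  have hV : (((W ×ˢ W).filter (fun w => key w.1 = key w.2)).card : ℝ) ≤ C₂ * P ^ 2 := by
    refine hsp φ hφ P hP _ fun w hw => ?_
    rw [Finset.mem_filter, Finset.mem_product] at hw
    obtain ⟨⟨h1, h2⟩, h3⟩ := hw
    have g1 := (hW _ h1).1
    have g2 := (hW _ h2).1
    have e1 : ⌊Rq φ R w.1 / δ₁⌋ = ⌊Rq φ R w.2 / δ₁⌋ := congrArg Prod.fst h3
    have e2 : ⌊bq φ w.1 / δ₂⌋ = ⌊bq φ w.2 / δ₂⌋ := congrArg Prod.snd h3
    refine ⟨g1, g2, ?_, ?_⟩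
    · refine close57 hP hR hδC ?_
      refine hdist _ _ _ _ (hcell w.1) ?_
      rw [e1]
      exact hcell w.2
    · refine le_trans (hdist _ _ _ _ (hcell2 w.1) ?_) hδP
      rw [e2]
      exact hcell2 w.2
  -- the sum over the occupied cells
  set lo : ℝ := c₁ * R / (2 * P ^ 3) - δ₁ with hlo
  set hi : ℝ := 4 * B * R / P ^ 3 + δ₁ with hhi
  set F' : ℝ → ℝ := fun b => 1 / δ₁ * ∫ r in Icc lo hi, G r b with hF'
  have hF'c : Continuous F' := by
    refine continuous_const.mul ?_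
    exact continuous_parametric_integral_of_continuous (f := fun (b r : ℝ) => G r b)
      (hG.comp (show Continuous (fun q : ℝ × ℝ => ((q.2, q.1) : ℝ × ℝ)) by fun_prop)) isCompact_Icc
  have hF'0 : ∀ b, 0 ≤ F' b := fun b => mul_nonneg (by positivity) (integral_nonneg fun r => hG0 r b)
  have hsumH : ∑ g ∈ W.image key, H g ≤ 1 / δ₂ * ∫ b in Icc (b₁ - 1 / 60) (b₁ + 1 / 60), F' b := by
    have hmaps : ∀ g ∈ W.image key, g.2 ∈ (W.image key).image Prod.snd := fun g hg =>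
      Finset.mem_image_of_mem _ hg
    rw [← Finset.sum_fiberwise_of_maps_to hmaps]
    have hin : ∀ l ∈ (W.image key).image Prod.snd, ∑ g ∈ (W.image key).filter (fun g => g.2 = l), H g ≤
        1 / δ₂ * ∫ b in cell57 δ₂ l, F' b := by
      intro l _
      have e1 : ∑ g ∈ (W.image key).filter (fun g => g.2 = l), H g =
          1 / δ₂ * ∫ b in cell57 δ₂ l, ∑ m ∈ ((W.image key).filter (fun g => g.2 = l)).image Prod.fst, F m b := by
        rw [integral_finsetSum _ fun m _ => ?_]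
        · rw [Finset.mul_sum, Finset.sum_image]
          · refine Finset.sum_congr rfl fun g hg => ?_
            rw [Finset.mem_filter] at hg
            simp only [hHdef, hg.2]
          · intro g hg g' hg' hgg
            rw [Finset.mem_coe, Finset.mem_filter] at hg hg'
            exact Prod.ext hgg (by rw [hg.2, hg'.2])
        · unfold cell57
          exact ((hFc m).integrableOn_Icc).mono_set Ico_subset_Icc_self
      rw [e1]
      refine mul_le_mul_of_nonneg_left ?_ (by positivity)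
      refine setIntegral_mono_on ?_ ?_ (by unfold cell57; exact measurableSet_Ico) fun b _ => ?_
      · unfold cell57
        exact (Continuous.integrableOn_Icc (continuous_finsetSum _ fun m _ => hFc m)).mono_set Ico_subset_Icc_self
      · unfold cell57
        exact (hF'c.integrableOn_Icc).mono_set Ico_subset_Icc_self
      · rw [hFdef, hF']
        simp only
        rw [← Finset.mul_sum]
        refine mul_le_mul_of_nonneg_left ?_ (by positivity)
        refine cellsum57 hδ₁ (hGr b) (fun r => hG0 r b) _ fun m hm => ?_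
        rw [Finset.mem_image] at hm
        obtain ⟨g, hg, rfl⟩ := hm
        rw [Finset.mem_filter, Finset.mem_image] at hg
        obtain ⟨⟨n, hn, rfl⟩, -⟩ := hg
        intro r hr
        have a1 := hdist _ _ _ _ (hcell n) hr
        have a2 := range57 hc hφ hP hR (hW n hn).1
        rw [abs_le] at a1
        exact ⟨by linarith, by linarith⟩
    refine (Finset.sum_le_sum hin).trans ?_
    rw [← Finset.mul_sum]
    refine mul_le_mul_of_nonneg_left ?_ (by positivity)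
    refine cellsum57 hδ₂ hF'c hF'0 _ fun l hl => ?_
    rw [Finset.mem_image] at hl
    obtain ⟨g, hg, rfl⟩ := hl
    rw [Finset.mem_image] at hg
    obtain ⟨n, hn, rfl⟩ := hg
    intro b hb
    have a1 := hdist _ _ _ _ (hcell2 n) hb
    have a2 := (hW n hn).2
    rw [abs_le] at a1 a2
    exact ⟨by linarith, by linarith⟩
  have hcard := good_card hP W fun n hn => (hW n hn).1
  have h1 := holder57 hs'
  have h2 := group57 W key hs' hH
  have hH0 : 0 ≤ ∑ g ∈ W.image key, H g := by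
    refine Finset.sum_nonneg fun g hg => ?_
    rw [Finset.mem_image] at hg
    obtain ⟨n, hn, rfl⟩ := hg
    have := hs' n hn
    exact le_trans (by positivity) (hH n hn)
  calc (∑ n ∈ W, s n) ^ 12 ≤ (W.card : ℝ) ^ 10 * (∑ n ∈ W, s n ^ 6) ^ 2 := h1
    _ ≤ (3 * P ^ 2) ^ 10 * ((C₂ * P ^ 2) * (1 / δ₂ * ∫ b in Icc (b₁ - 1 / 60) (b₁ + 1 / 60), F' b)) := by
        refine mul_le_mul (pow_le_pow_left₀ (by positivity) hcard 10) ?_ (by positivity) (by positivity)
        refine h2.trans ?_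
        exact mul_le_mul hV hsumH hH0 (by positivity)
    _ = _ := by ring

end Pool.Agent.Helper92.DT
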