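import Pool.Agent.Helper92.DT.O3
import Pool.Agent.Helper92.DT.O4

/-!
# DT-O5: one class, exponent 12
-/

open MeasureTheory Real Set Filter Topology

set_option autoImplicit false

namespace Pool.Agent.Helper92.DT

open Pool.Agent.Helper22.AE
open Pool.Agent.Helper92.GC
open Pool.Agent.Helper76.OV

/-- The theorem M12 for coefficients one (WP3). -/
def M12Prop : Prop := ∀ ε : ℝ, 0 < ε → ∀ B₂ : ℝ, ∃ C : ℝ, 0 < C ∧ ∀ H T b₁ : ℝ, 1 ≤ H → H ^ 3 ≤ T → T ≤ H ^ B₂ → |b₁| ≤ 1 / 2 →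
  ∫ b in Icc (b₁ - 1 / 60) (b₁ + 1 / 60), ∫ r in Icc T (2 * T), m12 (reg b₁ H) (fun p => ee (r * ph b p)) ≤
    C * H ^ ε * T * (H ^ 12 + H ^ 17 / T)

private theorem ee_cont92 : Continuous ee := by
  unfold ee
  fun_prop

private theorem m12_cont92 (S : Finset (ℤ × ℤ)) (f : ℝ → ℤ × ℤ → ℝ) (hf : ∀ k ∈ S, Continuous fun b => f b k) :
    Continuous (fun q : ℝ × ℝ => m12 S (fun p => ee (q.1 * f q.2 p))) := by
  unfold m12 tp
  refine continuous_parametric_integral_of_continuous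
    (f := fun (q : ℝ × ℝ) (c : ℝ × ℝ) => ‖∑ k ∈ S, ee (q.1 * f q.2 k) * ee (dt k c)‖ ^ 12) ?_ ?_
  · have h1 : ∀ k ∈ S, Continuous fun q : (ℝ × ℝ) × (ℝ × ℝ) => ee (q.1.1 * f q.1.2 k) := fun k hk =>
      ee_cont92.comp ((continuous_fst.comp continuous_fst).mul ((hf k hk).comp (continuous_snd.comp continuous_fst)))
    have h2 : ∀ k : ℤ × ℤ, Continuous fun q : (ℝ × ℝ) × (ℝ × ℝ) => ee (dt k q.2) := fun k =>
      ee_cont92.comp (by unfold dt; fun_prop)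
    have h3 : Continuous fun q : (ℝ × ℝ) × (ℝ × ℝ) => ∑ k ∈ S, ee (q.1.1 * f q.1.2 k) * ee (dt k q.2) :=
      continuous_finsetSum _ fun k hk => (h1 k hk).mul (h2 k)
    exact (h3.norm).pow 12
  · exact isCompact_Icc.prod isCompact_Icc

private theorem split92 {g : ℝ → ℝ} (hg : Continuous g) (h0 : ∀ r, 0 ≤ g r) {ρ lo hi : ℝ} (hρ : 0 < ρ) (J : ℕ)
    (hlo : ρ ≤ lo) (hhi : hi ≤ 2 ^ J * ρ) :
    ∫ r in Icc lo hi, g r ≤ ∑ i ∈ Finset.range J, ∫ r in Icc (2 ^ i * ρ) (2 * (2 ^ i * ρ)), g r := by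
  have h1 : ∫ r in Icc lo hi, g r ≤ ∫ r in Icc ρ (2 ^ J * ρ), g r := by
    refine setIntegral_mono_set ?_ ?_ ?_
    · exact hg.integrableOn_Icc
    · exact Eventually.of_forall h0
    · exact (Icc_subset_Icc hlo hhi).eventuallyLE
  refine h1.trans (le_of_eq ?_)
  have h2 := intervalIntegral.sum_integral_adjacent_intervals (μ := volume) (f := g)
    (a := fun i : ℕ => 2 ^ i * ρ) (n := J) (fun k _ => hg.intervalIntegrable _ _)
  have hJ : ρ ≤ 2 ^ J * ρ := by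
    have : (1 : ℝ) ≤ 2 ^ J := one_le_pow₀ (by norm_num)
    nlinarith only [hρ, this]
  rw [integral_Icc_eq_integral_Ioc, ← intervalIntegral.integral_of_le hJ]
  refine (Eq.trans ?_ h2.symm).trans ?_
  · simp
  · refine Finset.sum_congr rfl fun i _ => ?_
    have h3 : (0 : ℝ) < 2 ^ i * ρ := by positivity
    rw [integral_Icc_eq_integral_Ioc, ← intervalIntegral.integral_of_le (by linarith)]
    congr 1
    rw [pow_succ]
    ring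

private theorem geom92 (J : ℕ) : ∑ j ∈ Finset.range J, (2 : ℝ) ^ j ≤ 2 ^ J := by
  induction J with
  | zero => simp
  | succ J ih =>
    rw [Finset.sum_range_succ, pow_succ]
    linarith

private theorem par92 {g : ℝ → ℝ → ℝ} (hgc : Continuous (Function.uncurry g)) :
    (∀ b, Continuous fun r => g r b) ∧ ∀ x y : ℝ, Continuous fun b => ∫ r in Icc x y, g r b :=
  ⟨fun b => hgc.comp (show Continuous (fun r : ℝ => ((r, b) : ℝ × ℝ)) by fun_prop), fun x y =>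
    continuous_parametric_integral_of_continuous (f := fun (b r : ℝ) => g r b)
      (hgc.comp (show Continuous (fun q : ℝ × ℝ => ((q.2, q.1) : ℝ × ℝ)) by fun_prop)) isCompact_Icc⟩

/-- the truncated parameter -/
private noncomputable def cl (b₁ b : ℝ) : ℝ := max (b₁ - 1 / 60) (min b (b₁ + 1 / 60))

private theorem cl_cont (b₁ : ℝ) : Continuous (cl b₁) := by
  unfold cl
  fun_prop

private theorem cl_eq {b₁ b : ℝ} (h : |b - b₁| ≤ 1 / 60) : cl b₁ b = b := by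
  rw [abs_le] at h
  unfold cl
  rw [min_eq_left (by linarith only [h.2]), max_eq_right (by linarith [h.1])]

private theorem cl_mem (b₁ b : ℝ) : |cl b₁ b - b₁| ≤ 1 / 60 := by
  have h1 : b₁ - 1 / 60 ≤ cl b₁ b := le_max_left _ _
  have h2 : cl b₁ b ≤ b₁ + 1 / 60 := max_le (by linarith) (min_le_right _ _)
  rw [abs_le]
  constructor
  · linarith only [h1]
  · linarith

private theorem ph_cont92 {b₁ H : ℝ} (hH : 0 < H) {k : ℤ × ℤ} (hk : k ∈ reg b₁ H) :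
    Continuous fun b => ph (cl b₁ b) k := by
  classical
  unfold reg at hk
  obtain ⟨-, h1, h2, h3⟩ := Finset.mem_filter.1 hk
  unfold ph
  refine continuous_const.div ?_ fun b => ?_
  · unfold uu
    exact continuous_const.add ((cl_cont b₁).mul continuous_const)
  · have e : uu (cl b₁ b) k = uu b₁ k + (cl b₁ b - b₁) * (k.2 : ℝ) := by
      unfold uu
      ring
    have h4 : |(cl b₁ b - b₁) * (k.2 : ℝ)| ≤ 1 / 60 * (5 * uu b₁ k) := by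
      rw [abs_mul]
      exact mul_le_mul (cl_mem b₁ b) h3 (abs_nonneg _) (by norm_num)
    rw [abs_le] at h4
    have h5 : 0 < uu (cl b₁ b) k := by
      rw [e]
      linarith only [hH, h1, h4.1]
    exact h5.ne'

private theorem ar92 {C1 C2 C3 E K Q A R c₁ j : ℝ} (hK : 0 < K) (hQ : 0 < Q) (hA : 0 < A) :
    C1 * (Q / A) ^ 22 * (1 / (1 / (2 * (Q * A))) * (1 / (A * Q / K) * (C2 * (K ^ 2 * A / Q ^ 2) * (j *
      (C3 * E * (c₁ * R / (4 * (Q / A) ^ 3) * (K * A / Q) ^ 12 + (K * A / Q) ^ 17)))))) =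
      C1 * C2 * C3 * (2 * j) * E * (c₁ / 4 * (R * K ^ 15 * Q ^ 5) / A ^ 6 + K ^ 20 * Q ^ 3 / A ^ 4) := by
  have e0 : c₁ * R / (4 * (Q / A) ^ 3) = c₁ / 4 * R * (A ^ 3 / Q ^ 3) := by
    rw [div_pow]
    field_simp
  have e1 : (Q / A) ^ 22 = Q ^ 22 / A ^ 22 := div_pow _ _ _
  have e2 : (K * A / Q) ^ 12 = K ^ 12 * A ^ 12 / Q ^ 12 := by rw [div_pow, mul_pow]
  have e3 : (K * A / Q) ^ 17 = K ^ 17 * A ^ 17 / Q ^ 17 := by rw [div_pow, mul_pow]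
  have e4 : 1 / (1 / (2 * (Q * A))) = 2 * (Q * A) := one_div_one_div _
  have e5 : 1 / (A * Q / K) = K / (A * Q) := one_div_div _ _
  rw [e0, e1, e2, e3, e4, e5]
  have e6 : Q ^ 22 / A ^ 22 * (2 * (Q * A)) * (K / (A * Q)) * (K ^ 2 * A / Q ^ 2) * (A ^ 3 / Q ^ 3) * (K ^ 12 * A ^ 12 / Q ^ 12) =
      2 * (K ^ 15 * Q ^ 5) / A ^ 6 := by
    field_simp
  have e7 : Q ^ 22 / A ^ 22 * (2 * (Q * A)) * (K / (A * Q)) * (K ^ 2 * A / Q ^ 2) * (K ^ 17 * A ^ 17 / Q ^ 17) =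
      2 * (K ^ 20 * Q ^ 3) / A ^ 4 := by
    field_simp
  linear_combination C1 * C2 * C3 * j * E * (c₁ / 4) * R * e6 + C1 * C2 * C3 * j * E * e7

/-- one class, with the second parameter near `b₁` -/
private theorem class_one92 (hM : M12Prop) {ε c₁ B : ℝ} (hε : 0 < ε) (hc : 0 < c₁) (hB : 1 ≤ B) (C₀ B₂ : ℝ) (hB₂ : 0 < B₂) :
    ∃ C R₁ : ℝ, 0 < C ∧ 1 ≤ R₁ ∧
    ∀ (φ : ℝ → ℝ) (W : ℝ → ℂ), Cn c₁ B φ → Cw B W → ∀ (K Q : ℕ) (A R : ℝ), 100 ≤ Q → Q ≤ K → 1 ≤ A →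
    R₁ ≤ R → R ^ 2 ≤ ((K : ℝ) / Q) ^ B₂ →
    4 * C₀ ≤ c₁ * Q → 12 * B ≤ c₁ * Q → A ≤ Q → A ^ 4 ≤ (Q : ℝ) ^ 3 → 0 < R → R * K ≤ C₀ * (Q : ℝ) ^ 5 →
    (Q : ℝ) ^ 5 ≤ C₀ * (R * K) → 4 * (K : ℝ) ^ 3 ≤ c₁ * R →
    ∀ i : ℕ, (i = 1 ∨ i = 2) → ∀ c : ℝ × ℝ, ∀ b₁ : ℝ, |b₁| ≤ 1 / 2 → ∀ V : Finset (ℤ × ℤ),
      (∀ n ∈ V, Good (Q / A) n ∧ |bq φ n - b₁| ≤ 1 / 100) →
        (∑ n ∈ V, ‖os (sec K Q n) K i W φ R c‖) ^ 12 ≤
          C * (K : ℝ) ^ ε * (R * (K : ℝ) ^ 15 * (Q : ℝ) ^ 5 + (K : ℝ) ^ 20 * (Q : ℝ) ^ 3) := by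
  obtain ⟨C1, hC1, hcs⟩ := class_sum12 hc hB C₀
  obtain ⟨C2, hC2, hsb⟩ := sector_bound12' hc hB C₀
  obtain ⟨C3, hC3, hsh⟩ := hM ε hε B₂
  obtain ⟨J, hJ⟩ : ∃ J : ℕ, 16 * B / c₁ + 1 ≤ 2 ^ J :=
    (pow_unbounded_of_one_lt (16 * B / c₁ + 1) (by norm_num : (1 : ℝ) < 2)).imp fun _ h => h.le
  refine ⟨C1 * C2 * C3 * (2 * 2 ^ J * (1 + c₁ / 4)), 2 ^ J * c₁ + 1, by positivity, by
    have : 0 < 2 ^ J * c₁ := by positivity
    linarith, ?_⟩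
  intro φ W hφ hWt K Q A R hQ8 hQK hA hRR hRB hCQ hBQ hAQ hA4 hR h1 h2 hH i hi c b₁ hb₁ V hV
  have hQr : (100 : ℝ) ≤ Q := by exact_mod_cast hQ8
  have hQ0 : (0 : ℝ) < Q := by linarith only [hQr]
  have hQ1 : (1 : ℝ) ≤ Q := by linarith only [hQr]
  have hQKr : (Q : ℝ) ≤ K := by exact_mod_cast hQK
  have hK0 : (0 : ℝ) < K := lt_of_lt_of_le hQ0 hQKr
  have hA0 : (0 : ℝ) < A := by linarith only [hA]
  have hRK : 0 < R * K := by positivity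
  have hC0 : 0 < C₀ := by
    by_contra hcon
    rw [not_lt] at hcon
    have h3 : C₀ * (R * K) ≤ 0 := mul_nonpos_of_nonpos_of_nonneg hcon hRK.le
    have h4 : (0 : ℝ) < (Q : ℝ) ^ 5 := by positivity
    linarith only [h2, h3, h4]
  set P : ℝ := Q / A with hP
  have hP1 : 1 ≤ P := by
    rw [hP, le_div_iff₀ hA0]
    linarith only [hAQ]
  have hP0 : 0 < P := by linarith only [hP1]
  set δ₁ : ℝ := A * Q / K with hδ₁
  have hδ₁0 : 0 < δ₁ := by positivity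
  set δ₂ : ℝ := 1 / (2 * (Q * A)) with hδ₂
  have hδ₂0 : 0 < δ₂ := by positivity
  set H : ℝ := K * A / Q with hHdef
  have hH1 : 1 ≤ H := by
    rw [hHdef, le_div_iff₀ hQ0, one_mul]
    nlinarith only [hQKr, hA]
  have hHK : H ≤ K := by
    rw [hHdef, div_le_iff₀ hQ0]
    exact mul_le_mul_of_nonneg_left hAQ hK0.le
  have hH0 : 0 < H := by linarith only [hH1]
  set ρ : ℝ := c₁ * R / (4 * P ^ 3) with hρdef
  have hρ0 : 0 < ρ := by positivity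
  have hA3 : (1 : ℝ) ≤ A ^ 3 := one_le_pow₀ hA
  have hA2 : (1 : ℝ) ≤ A ^ 2 := one_le_pow₀ hA
  have c1 : δ₁ * P ^ 4 ≤ C₀ * R := by
    have e : δ₁ * P ^ 4 = (Q : ℝ) ^ 5 / (K * A ^ 3) := by
      rw [hδ₁, hP]
      field_simp
    rw [e, div_le_iff₀ (by positivity)]
    calc (Q : ℝ) ^ 5 ≤ C₀ * (R * K) := h2
      _ = C₀ * R * K * 1 := by ring
      _ ≤ C₀ * R * K * A ^ 3 := mul_le_mul_of_nonneg_left hA3 (by positivity)
      _ = C₀ * R * (K * A ^ 3) := by ring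
  have hQA : (Q : ℝ) ≤ Q * A := by nlinarith only [hA]
  have c2 : δ₂ ≤ 1 / P := by
    rw [hδ₂, hP, one_div_div, div_le_div_iff₀ (by positivity) hQ0]
    nlinarith only [hA2, hQr]
  have c2' : δ₂ ≤ 1 / 200 := by
    rw [hδ₂]
    exact one_div_le_one_div_of_le (by norm_num) (by linarith only [hQr, hQA])
  have c3 : δ₁ ≤ ρ := by
    have e : δ₁ * P ^ 3 = (Q : ℝ) ^ 4 / (K * A ^ 2) := by
      rw [hδ₁, hP]
      field_simp
    have e2 : δ₁ * P ^ 3 ≤ c₁ * R / 4 := by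
      rw [e, div_le_div_iff₀ (by positivity) (by norm_num)]
      have e3 : (Q : ℝ) ^ 4 * 4 * Q ≤ c₁ * (R * K) * Q := by
        calc (Q : ℝ) ^ 4 * 4 * Q = 4 * (Q : ℝ) ^ 5 := by ring
          _ ≤ 4 * (C₀ * (R * K)) := by linarith only [h2]
          _ = (4 * C₀) * (R * K) := by ring
          _ ≤ (c₁ * Q) * (R * K) := mul_le_mul_of_nonneg_right hCQ hRK.le
          _ = c₁ * (R * K) * Q := by ring
      have e4 : (Q : ℝ) ^ 4 * 4 ≤ c₁ * (R * K) := le_of_mul_le_mul_right e3 hQ0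
      calc (Q : ℝ) ^ 4 * 4 ≤ c₁ * (R * K) := e4
        _ = c₁ * (R * K) * 1 := by ring
        _ ≤ c₁ * (R * K) * A ^ 2 := mul_le_mul_of_nonneg_left hA2 (by positivity)
        _ = c₁ * R * (K * A ^ 2) := by ring
    rw [hρdef, le_div_iff₀ (by positivity)]
    linarith only [e2]
  have hH3 : H ^ 3 ≤ ρ := by
    rw [hρdef, hHdef, hP]
    have e1 : (K * A / Q : ℝ) ^ 3 = (K : ℝ) ^ 3 * A ^ 3 / (Q : ℝ) ^ 3 := by
      rw [div_pow, mul_pow]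
    have e2 : c₁ * R / (4 * (Q / A) ^ 3) = c₁ * R / 4 * A ^ 3 / (Q : ℝ) ^ 3 := by
      field_simp
    rw [e1, e2]
    refine div_le_div_of_nonneg_right ?_ (by positivity)
    exact mul_le_mul_of_nonneg_right (by linarith only [hH]) (by positivity)
  have hlo : ρ ≤ c₁ * R / (2 * P ^ 3) - δ₁ := by
    have e : c₁ * R / (2 * P ^ 3) = 2 * ρ := by
      rw [hρdef]
      field_simp
      norm_num
    rw [e]
    linarith only [c3]
  have hhi : 4 * B * R / P ^ 3 + δ₁ ≤ 2 ^ J * ρ := by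
    have e : 4 * B * R / P ^ 3 = 16 * B / c₁ * ρ := by
      rw [hρdef]
      field_simp
      norm_num
    rw [e]
    calc 16 * B / c₁ * ρ + δ₁ ≤ (16 * B / c₁ + 1) * ρ := by linarith only [c3]
      _ ≤ 2 ^ J * ρ := mul_le_mul_of_nonneg_right hJ hρ0.le
  obtain ⟨g, hg⟩ : ∃ g : ℝ → ℝ → ℝ, g = fun r b => m12 (reg b₁ H) (fun p => ee (r * ph (cl b₁ b) p)) := ⟨_, rfl⟩
  have hg0 : ∀ r b, 0 ≤ g r b := fun r b => by
    rw [hg]
    exact m12_nonneg _ _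
  have hgc : Continuous (Function.uncurry g) := by
    rw [hg]
    exact m12_cont92 (reg b₁ H) (fun b k => ph (cl b₁ b) k) fun k hk => ph_cont92 hH0 hk
  set D : ℝ := C2 * ((K : ℝ) ^ 2 * A / (Q : ℝ) ^ 2) with hDdef
  have hD : 0 ≤ D := by positivity
  have key := hcs φ hφ P R δ₁ δ₂ b₁ hP1 hR hδ₁0 hδ₂0 c1 c2 c2'
    (fun r b => D * g r b) (continuous_const.mul hgc) (fun r b => mul_nonneg hD (hg0 r b))
    (fun n => ‖os (sec K Q n) K i W φ R c‖) (fun n _ => norm_nonneg _)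
    (fun n hn hn2 r b hr hb => by
      have hbb : |b - b₁| ≤ 1 / 60 := by
        have e : b - b₁ = (bq φ n - b₁) - (bq φ n - b) := by ring
        rw [e]
        refine (abs_sub _ _).trans ?_
        linarith only [hδ₂0, c2', hn2, hb]
      have e : cl b₁ b = b := cl_eq hbb
      simp only [hg, e]
      refine hsb φ W hφ hWt K Q A R r b b₁ n (by omega) hQK hA hBQ hA4 hR h1 h2 hn hr (hb.trans ?_)
        (hn2.trans (by norm_num)) i hi c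
      rw [hδ₂]
      refine one_div_le_one_div_of_le (by positivity) ?_
      have : 0 < (Q : ℝ) * A := by positivity
      linarith only [hQr, hδ₂0, hQA, c2']) V hV
  refine key.trans ?_
  -- the double integral
  obtain ⟨hgr, hpar⟩ := par92 hgc
  set Y : ℝ := C3 * (K : ℝ) ^ ε * (ρ * H ^ 12 + H ^ 17) with hY
  have hY0 : 0 ≤ Y := by positivity
  have hterm : ∀ j ∈ Finset.range J, ∫ b in Icc (b₁ - 1 / 60) (b₁ + 1 / 60),
      ∫ r in Icc (2 ^ j * ρ) (2 * (2 ^ j * ρ)), g r b ≤ 2 ^ j * Y := by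
    intro j hjr
    have hj : (1 : ℝ) ≤ 2 ^ j := one_le_pow₀ (by norm_num)
    have hρj : ρ ≤ 2 ^ j * ρ := by nlinarith only [hρ0, hj]
    have hρj0 : 0 < 2 ^ j * ρ := by positivity
    have hTB : 2 ^ j * ρ ≤ H ^ B₂ := by
      have hjJ : (2 : ℝ) ^ j ≤ 2 ^ J := pow_le_pow_right₀ (by norm_num) (Finset.mem_range.1 hjr).le
      have f1 : ρ ≤ c₁ * R := by
        rw [hρdef, div_le_iff₀ (by positivity)]
        have f2 : 1 ≤ P ^ 3 := one_le_pow₀ hP1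
        have f3 : 0 < c₁ * R := by positivity
        nlinarith only [hH, hQr, hQKr, hδ₂0, c2', f2, f3]
      have f4 : (K : ℝ) / Q ≤ H := by
        rw [hHdef]
        refine div_le_div_of_nonneg_right ?_ hQ0.le
        nlinarith only [hA]
      calc 2 ^ j * ρ ≤ 2 ^ J * (c₁ * R) := mul_le_mul hjJ f1 hρ0.le (by positivity)
        _ = (2 ^ J * c₁) * R := by ring
        _ ≤ R * R := mul_le_mul_of_nonneg_right (by linarith only [hRR, hδ₂0, c2']) hR.le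
        _ = R ^ 2 := by ring
        _ ≤ ((K : ℝ) / Q) ^ B₂ := hRB
        _ ≤ H ^ B₂ := Real.rpow_le_rpow (by positivity) f4 hB₂.le
    have h3 := hsh H (2 ^ j * ρ) b₁ hH1 (hH3.trans hρj) hTB hb₁
    have h4 : ∫ b in Icc (b₁ - 1 / 60) (b₁ + 1 / 60), ∫ r in Icc (2 ^ j * ρ) (2 * (2 ^ j * ρ)), g r b =
        ∫ b in Icc (b₁ - 1 / 60) (b₁ + 1 / 60), ∫ r in Icc (2 ^ j * ρ) (2 * (2 ^ j * ρ)),
          m12 (reg b₁ H) (fun p => ee (r * ph b p)) := by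
      refine setIntegral_congr_fun measurableSet_Icc fun b hb => ?_
      have e : cl b₁ b = b := cl_eq (by
        rw [abs_le]
        exact ⟨by linarith only [hb.1], by linarith only [hb.2]⟩)
      simp only [hg, e]
    rw [h4]
    refine h3.trans ?_
    have h5 : H ^ ε ≤ (K : ℝ) ^ ε := Real.rpow_le_rpow hH0.le hHK hε.le
    have h6 : (2 ^ j * ρ) * (H ^ 12 + H ^ 17 / (2 ^ j * ρ)) = 2 ^ j * ρ * H ^ 12 + H ^ 17 := by
      field_simp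
    calc C3 * H ^ ε * (2 ^ j * ρ) * (H ^ 12 + H ^ 17 / (2 ^ j * ρ))
        = C3 * H ^ ε * ((2 ^ j * ρ) * (H ^ 12 + H ^ 17 / (2 ^ j * ρ))) := by ring
      _ = C3 * H ^ ε * (2 ^ j * ρ * H ^ 12 + H ^ 17) := by rw [h6]
      _ ≤ C3 * (K : ℝ) ^ ε * (2 ^ j * ρ * H ^ 12 + 2 ^ j * H ^ 17) := by
          have h7 : H ^ 17 ≤ 2 ^ j * H ^ 17 := le_mul_of_one_le_left (by positivity) hj
          exact mul_le_mul (mul_le_mul_of_nonneg_left h5 hC3.le) (by linarith only [h7]) (by positivity) (by positivity)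
      _ = 2 ^ j * Y := by
          rw [hY]
          ring
  have hdouble : ∫ b in Icc (b₁ - 1 / 60) (b₁ + 1 / 60),
      ∫ r in Icc (c₁ * R / (2 * P ^ 3) - δ₁) (4 * B * R / P ^ 3 + δ₁), g r b ≤ 2 ^ J * Y := by
    calc ∫ b in Icc (b₁ - 1 / 60) (b₁ + 1 / 60),
        ∫ r in Icc (c₁ * R / (2 * P ^ 3) - δ₁) (4 * B * R / P ^ 3 + δ₁), g r b
        ≤ ∫ b in Icc (b₁ - 1 / 60) (b₁ + 1 / 60), ∑ j ∈ Finset.range J,
            ∫ r in Icc (2 ^ j * ρ) (2 * (2 ^ j * ρ)), g r b := by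
          refine setIntegral_mono_on (hpar _ _).integrableOn_Icc
            (Continuous.integrableOn_Icc (continuous_finsetSum _ fun j _ => hpar _ _)) measurableSet_Icc fun b _ => ?_
          exact split92 (hgr b) (fun r => hg0 r b) hρ0 J hlo hhi
      _ = ∑ j ∈ Finset.range J, ∫ b in Icc (b₁ - 1 / 60) (b₁ + 1 / 60),
            ∫ r in Icc (2 ^ j * ρ) (2 * (2 ^ j * ρ)), g r b :=
          integral_finsetSum _ fun j _ => (hpar _ _).integrableOn_Icc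
      _ ≤ ∑ j ∈ Finset.range J, 2 ^ j * Y := Finset.sum_le_sum hterm
      _ ≤ 2 ^ J * Y := by
          rw [← Finset.sum_mul]
          exact mul_le_mul_of_nonneg_right (geom92 J) hY0
  have hint : 1 / δ₂ * ∫ b in Icc (b₁ - 1 / 60) (b₁ + 1 / 60),
      1 / δ₁ * ∫ r in Icc (c₁ * R / (2 * P ^ 3) - δ₁) (4 * B * R / P ^ 3 + δ₁), D * g r b ≤
      1 / δ₂ * (1 / δ₁ * (D * (2 ^ J * Y))) := by
    refine mul_le_mul_of_nonneg_left ?_ (by positivity)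
    simp only [integral_const_mul]
    refine mul_le_mul_of_nonneg_left ?_ (by positivity)
    exact mul_le_mul_of_nonneg_left hdouble hD
  refine (mul_le_mul_of_nonneg_left hint (by positivity)).trans ?_
  have e1 : C1 * P ^ 22 * (1 / δ₂ * (1 / δ₁ * (D * (2 ^ J * Y)))) =
      C1 * C2 * C3 * (2 * 2 ^ J) * (K : ℝ) ^ ε * (c₁ / 4 * (R * (K : ℝ) ^ 15 * (Q : ℝ) ^ 5) / A ^ 6 +
        (K : ℝ) ^ 20 * (Q : ℝ) ^ 3 / A ^ 4) := by
    exact ar92 hK0 hQ0 hA0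
  rw [e1]
  have e2 : c₁ / 4 * (R * (K : ℝ) ^ 15 * (Q : ℝ) ^ 5) / A ^ 6 + (K : ℝ) ^ 20 * (Q : ℝ) ^ 3 / A ^ 4 ≤
      (1 + c₁ / 4) * (R * (K : ℝ) ^ 15 * (Q : ℝ) ^ 5 + (K : ℝ) ^ 20 * (Q : ℝ) ^ 3) := by
    have f1 : c₁ / 4 * (R * (K : ℝ) ^ 15 * (Q : ℝ) ^ 5) / A ^ 6 ≤ c₁ / 4 * (R * (K : ℝ) ^ 15 * (Q : ℝ) ^ 5) :=
      div_le_self (by positivity) (one_le_pow₀ hA)
    have f2 : (K : ℝ) ^ 20 * (Q : ℝ) ^ 3 / A ^ 4 ≤ (K : ℝ) ^ 20 * (Q : ℝ) ^ 3 :=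
      div_le_self (by positivity) (one_le_pow₀ hA)
    have f3 : 0 ≤ R * (K : ℝ) ^ 15 * (Q : ℝ) ^ 5 := by positivity
    have f4 : 0 ≤ c₁ / 4 * ((K : ℝ) ^ 20 * (Q : ℝ) ^ 3) := by positivity
    linarith only [f1, f2, f3, f4]
  calc _ ≤ C1 * C2 * C3 * (2 * 2 ^ J) * (K : ℝ) ^ ε *
        ((1 + c₁ / 4) * (R * (K : ℝ) ^ 15 * (Q : ℝ) ^ 5 + (K : ℝ) ^ 20 * (Q : ℝ) ^ 3)) :=
        mul_le_mul_of_nonneg_left e2 (by positivity)
    _ = _ := by ring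

/-- the grid of the second parameter -/
private lemma grid92 {x : ℝ} (hx : |x| ≤ 1 / 2) : ∃ m : ℤ, m ∈ Finset.Icc (-50 : ℤ) 50 ∧ |x - (m : ℝ) / 100| ≤ 1 / 100 := by
  rw [abs_le] at hx
  have h1 := Int.floor_le (x * 100)
  have h2 := Int.lt_floor_add_one (x * 100)
  refine ⟨⌊x * 100⌋, Finset.mem_Icc.2 ⟨?_, ?_⟩, ?_⟩
  · rw [Int.le_floor]
    push_cast
    linarith [hx.1]
  · have h3 : (⌊x * 100⌋ : ℝ) ≤ 50 := by linarith [hx.2]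
    exact_mod_cast h3
  · rw [abs_le]
    constructor
    · linarith
    · linarith

private lemma one_le92 {P : ℝ} (hP : 1 ≤ P) {n : ℤ × ℤ} (h : Good P n) : 1 ≤ n.1 := by
  have h1 := h.lo
  have h2 : (0 : ℝ) < n.1 := by linarith
  have h3 : 0 < n.1 := by exact_mod_cast h2
  omega

theorem class_bound12 (hM : M12Prop) {ε c₁ B : ℝ} (hε : 0 < ε) (hc : 0 < c₁) (hB : 1 ≤ B) (C₀ B₂ : ℝ) (hB₂ : 0 < B₂) :
    ∃ C R₁ : ℝ, 0 < C ∧ 1 ≤ R₁ ∧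
    ∀ (φ : ℝ → ℝ) (W : ℝ → ℂ), Cn c₁ B φ → Cw B W → ∀ (K Q : ℕ) (A R : ℝ), 100 ≤ Q → Q ≤ K → 1 ≤ A →
    R₁ ≤ R → R ^ 2 ≤ ((K : ℝ) / Q) ^ B₂ →
    4 * C₀ ≤ c₁ * Q → 12 * B ≤ c₁ * Q → A ≤ Q → A ^ 4 ≤ (Q : ℝ) ^ 3 → 0 < R → R * K ≤ C₀ * (Q : ℝ) ^ 5 →
    (Q : ℝ) ^ 5 ≤ C₀ * (R * K) → 4 * (K : ℝ) ^ 3 ≤ c₁ * R →
    ∀ i : ℕ, (i = 1 ∨ i = 2) → ∀ c : ℝ × ℝ, ∀ V : Finset (ℤ × ℤ), (∀ n ∈ V, Good (Q / A) n) →
        (∑ n ∈ V, ‖os (sec K Q n) K i W φ R c‖) ^ 12 ≤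
          C * (K : ℝ) ^ ε * (R * (K : ℝ) ^ 15 * (Q : ℝ) ^ 5 + (K : ℝ) ^ 20 * (Q : ℝ) ^ 3) := by
  classical
  obtain ⟨C1, R₁, hC1, hR₁, hone⟩ := class_one92 hM hε hc hB C₀ B₂ hB₂
  refine ⟨101 ^ 12 * C1, R₁, by positivity, hR₁, ?_⟩
  intro φ W hφ hWt K Q A R hQ8 hQK hA hRR hRB hCQ hBQ hAQ hA4 hR h1 h2 hH i hi c V hV
  have hA0 : (0 : ℝ) < A := by linarith
  have hP1 : 1 ≤ (Q : ℝ) / A := by
    rw [le_div_iff₀ hA0]
    linarith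
  have hex : ∀ n ∈ V, ∃ m : ℤ, m ∈ Finset.Icc (-50 : ℤ) 50 ∧ |bq φ n - (m : ℝ) / 100| ≤ 1 / 100 := by
    intro n hn
    exact grid92 (bq_le φ (hV n hn).cop (one_le92 hP1 (hV n hn)))
  choose! f hf using hex
  set s : ℤ × ℤ → ℝ := fun n => ‖os (sec K Q n) K i W φ R c‖ with hs
  set Z : ℝ := C1 * (K : ℝ) ^ ε * (R * (K : ℝ) ^ 15 * (Q : ℝ) ^ 5 + (K : ℝ) ^ 20 * (Q : ℝ) ^ 3) with hZ
  have hfib : ∑ n ∈ V, s n = ∑ m ∈ Finset.Icc (-50 : ℤ) 50, ∑ n ∈ V.filter (fun n => f n = m), s n :=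
    (Finset.sum_fiberwise_of_maps_to (fun n hn => (hf n hn).1) _).symm
  have hm : ∀ m ∈ Finset.Icc (-50 : ℤ) 50, (∑ n ∈ V.filter (fun n => f n = m), s n) ^ 12 ≤ Z := by
    intro m hmm
    refine hone φ W hφ hWt K Q A R hQ8 hQK hA hRR hRB hCQ hBQ hAQ hA4 hR h1 h2 hH i hi c ((m : ℝ) / 100) ?_ _ ?_
    · rw [Finset.mem_Icc] at hmm
      have a1 : (-50 : ℝ) ≤ m := by exact_mod_cast hmm.1
      have a2 : (m : ℝ) ≤ 50 := by exact_mod_cast hmm.2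
      rw [abs_le]
      constructor
      · linarith only [a1]
      · linarith
    · intro n hn
      obtain ⟨b1, b2⟩ := Finset.mem_filter.1 hn
      refine ⟨hV n b1, ?_⟩
      rw [← b2]
      exact (hf n b1).2
  have hs0 : ∀ m ∈ Finset.Icc (-50 : ℤ) 50, 0 ≤ ∑ n ∈ V.filter (fun n => f n = m), s n := fun m _ =>
    Finset.sum_nonneg fun n _ => norm_nonneg _
  have hpow := pow_sum_div_card_le_sum_pow hs0 11
  have hcard : (((Finset.Icc (-50 : ℤ) 50).card : ℕ) : ℝ) = 101 := by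
    rw [Int.card_Icc]
    rfl
  rw [hcard, div_le_iff₀ (by positivity)] at hpow
  change (∑ n ∈ V, s n) ^ 12 ≤ _
  rw [hfib]
  refine hpow.trans ?_
  have hsum : ∑ m ∈ Finset.Icc (-50 : ℤ) 50, (∑ n ∈ V.filter (fun n => f n = m), s n) ^ (11 + 1) ≤ 101 * Z := by
    refine (Finset.sum_le_sum hm).trans (le_of_eq ?_)
    rw [Finset.sum_const, nsmul_eq_mul, hcard]
  calc (∑ m ∈ Finset.Icc (-50 : ℤ) 50, (∑ n ∈ V.filter (fun n => f n = m), s n) ^ (11 + 1)) * 101 ^ 11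
      ≤ (101 * Z) * 101 ^ 11 := mul_le_mul_of_nonneg_right hsum (by positivity)
    _ = 101 ^ 12 * C1 * (K : ℝ) ^ ε * (R * (K : ℝ) ^ 15 * (Q : ℝ) ^ 5 + (K : ℝ) ^ 20 * (Q : ℝ) ^ 3) := by
        rw [hZ]
        ring

end Pool.Agent.Helper92.DT
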