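import Pool.Agent.Helper76.OV.G6
import Pool.Agent.Helper92.DT.O5

/-!
# DT-O6: the octant sum, exponent 12
-/

open MeasureTheory Real Set Filter Topology

set_option autoImplicit false

namespace Pool.Agent.Helper92.DT

open Pool.Agent.Helper22.AE
open Pool.Agent.Helper92.GC
open Pool.Agent.Helper76.OV

private theorem mem_oct50 {K : ℕ} {k : ℤ × ℤ} (hk : k ∈ oct K) :
    (K : ℤ) ≤ k.1 ∧ k.1 < 2 * K ∧ 0 ≤ k.2 ∧ k.2 ≤ k.1 := by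
  classical
  unfold oct at hk
  exact (Finset.mem_filter.1 hk).2

private theorem term50 {B : ℝ} {W : ℝ → ℂ} (hW : Cw B W) {K : ℕ} (hK : 1 ≤ K) {k : ℤ × ℤ}
    (hk : (K : ℤ) ≤ k.1) (i : ℕ) (x : ℝ) :
    ‖(((K : ℝ) / (k.1 : ℝ) : ℝ) : ℂ) ^ i * W (sl k) * ee x‖ ≤ B := by
  have h1 : (K : ℝ) ≤ (k.1 : ℝ) := by exact_mod_cast hk
  have hK0 : (0 : ℝ) < K := by exact_mod_cast hK
  have h0 : 0 < (k.1 : ℝ) := hK0.trans_le h1
  rw [norm_mul, ee_norm, mul_one, norm_mul, norm_pow, Complex.norm_real,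
    Real.norm_of_nonneg (by positivity)]
  have h2 : ((K : ℝ) / (k.1 : ℝ)) ^ i ≤ 1 := pow_le_one₀ (by positivity) ((div_le_one h0).2 h1)
  calc ((K : ℝ) / (k.1 : ℝ)) ^ i * ‖W (sl k)‖ ≤ 1 * ‖W (sl k)‖ :=
        mul_le_mul_of_nonneg_right h2 (norm_nonneg _)
    _ = ‖W (sl k)‖ := one_mul _
    _ ≤ B := hW.wb _

private theorem os_card50 {B : ℝ} {W : ℝ → ℂ} (hW : Cw B W) (φ : ℝ → ℝ) {K : ℕ} (hK : 1 ≤ K)
    {S : Finset (ℤ × ℤ)} (hS : S ⊆ oct K) (i : ℕ)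
    (R : ℝ) (c : ℝ × ℝ) : ‖os S K i W φ R c‖ ≤ B * S.card := by
  unfold os
  refine (norm_sum_le _ _).trans ?_
  refine (Finset.sum_le_card_nsmul _ _ B fun k hk => ?_).trans
    (le_of_eq (by rw [nsmul_eq_mul]; ring))
  exact term50 hW hK (mem_oct50 (hS hk)).1 i _

private theorem oct_card50 {K : ℕ} (hK : 1 ≤ K) : ((oct K).card : ℝ) ≤ 25 * (K : ℝ) ^ 2 := by
  classical
  have h1 : (oct K).card ≤ (box (2 * K)).card := by
    unfold oct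
    exact Finset.card_le_card (Finset.filter_subset _ _)
  have h2 : (box (2 * K)).card = (4 * K + 1) ^ 2 := by
    unfold box
    rw [Finset.card_product, Int.card_Icc]
    have h3 : ((2 * K : ℕ) : ℤ) + 1 - (-((2 * K : ℕ) : ℤ)) = ((4 * K + 1 : ℕ) : ℤ) := by
      push_cast
      ring
    rw [h3, Int.toNat_natCast]
    ring
  have h4 : (4 * K + 1) ^ 2 ≤ 25 * K ^ 2 := by nlinarith
  have h5 : (oct K).card ≤ 25 * K ^ 2 := by omega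
  exact_mod_cast h5

/-- the parameters -/
private theorem par50 {ε c₁ B : ℝ} (hε : 0 < ε) (hε1 : ε ≤ 1 / 1000) (hc : 0 < c₁) (hB : 1 ≤ B)
    {R₀ R : ℝ} {K : ℕ} (hR₀ : 1 ≤ R₀)
    (h1 : R₀ ≤ R) (h2 : R ≤ 2 * R₀) (h3 : R₀ ^ (1 / 4 + ε) ≤ K)
    (h4 : (K : ℝ) ≤ R₀ ^ (1 / 3 - ε))
    (hM : 1536 + 512 / c₁ + 12 * B / c₁ ≤ R₀ ^ (2 * ε)) :
    ∃ (Q : ℕ) (x : ℝ), x = (R₀ * K) ^ (1 / 5 : ℝ) ∧ 1 ≤ x ∧
      x ^ 5 = R₀ * K ∧ x ≤ Q ∧ (Q : ℝ) ≤ 2 * x ∧ 1536 ≤ Q ∧ Q ≤ K ∧ ((K : ℝ) / Q) ^ 4 ≤ (Q : ℝ) ∧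
      R * K ≤ 128 * (Q : ℝ) ^ 5 ∧ (Q : ℝ) ^ 5 ≤ 128 * (R * K) ∧ 512 ≤ c₁ * Q ∧ 12 * B ≤ c₁ * Q ∧
      4 * (K : ℝ) ^ 3 ≤ c₁ * R ∧ R ^ 2 ≤ ((K : ℝ) / Q) ^ (6 / ε) := by
  have hR0 : 0 < R₀ := by linarith
  have hK1 : (1 : ℝ) ≤ K := (Real.one_le_rpow hR₀ (by linarith)).trans h3
  have hK0 : (0 : ℝ) < K := by linarith
  have hRK : 1 ≤ R₀ * K := one_le_mul_of_one_le_of_one_le hR₀ hK1
  have hRK0 : 0 ≤ R₀ * K := by linarith
  have hm1 : 0 ≤ 512 / c₁ := by positivity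
  have hm2 : 0 ≤ 12 * B / c₁ := by positivity
  obtain ⟨x, hx⟩ : ∃ x : ℝ, x = (R₀ * K) ^ (1 / 5 : ℝ) := ⟨_, rfl⟩
  have hx1 : 1 ≤ x := by
    rw [hx]
    exact Real.one_le_rpow hRK (by norm_num)
  have hx0 : 0 < x := by linarith
  have hx5 : x ^ 5 = R₀ * K := by
    rw [hx, ← Real.rpow_natCast, ← Real.rpow_mul hRK0]
    norm_num
  have hQx : x ≤ (⌈x⌉₊ : ℝ) := Nat.le_ceil x
  have hQ2 : (⌈x⌉₊ : ℝ) ≤ 2 * x := by
    have := Nat.ceil_lt_add_one hx0.le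
    linarith
  generalize ⌈x⌉₊ = Q at hQx hQ2
  have hxM : 1536 + 512 / c₁ + 12 * B / c₁ ≤ x := by
    refine hM.trans ?_
    rw [hx]
    calc R₀ ^ (2 * ε) ≤ R₀ ^ (1 / 5 : ℝ) := Real.rpow_le_rpow_of_exponent_le hR₀ (by linarith)
      _ ≤ (R₀ * K) ^ (1 / 5 : ℝ) := Real.rpow_le_rpow hR0.le (le_mul_of_one_le_right hR0.le hK1)
        (by norm_num)
  have hQ0 : (0 : ℝ) < Q := by linarith
  -- the power `y = R₀^(ε/2)`
  obtain ⟨y, hy⟩ : ∃ y : ℝ, y = R₀ ^ (ε / 2) := ⟨_, rfl⟩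
  have hy0 : 0 < y := by
    rw [hy]
    positivity
  have hy4 : y ^ 4 = R₀ ^ (2 * ε) := by
    rw [hy, ← Real.rpow_natCast, ← Real.rpow_mul hR0.le]
    congr 1
    push_cast
    ring
  have hy6 : 6 ≤ y := by
    by_contra hcon
    push Not at hcon
    have := pow_lt_pow_left₀ hcon hy0.le (n := 4) (by norm_num)
    rw [hy4] at this
    norm_num at this
    linarith
  have hy8 : R₀ ^ (1 / 4 + ε) = R₀ ^ (1 / 4 : ℝ) * y ^ 2 := by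
    rw [hy, ← Real.rpow_natCast, ← Real.rpow_mul hR0.le, ← Real.rpow_add hR0]
    congr 1
    push_cast
    ring
  have hq4 : (R₀ ^ (1 / 4 : ℝ)) ^ 4 = R₀ := by
    rw [← Real.rpow_natCast, ← Real.rpow_mul hR0.le]
    norm_num
  have hK4 : R₀ * y ^ 8 ≤ (K : ℝ) ^ 4 := by
    have e2 : (R₀ ^ (1 / 4 + ε)) ^ 4 ≤ (K : ℝ) ^ 4 := pow_le_pow_left₀ (by positivity) h3 4
    rw [hy8, mul_pow, hq4] at e2
    calc R₀ * y ^ 8 = R₀ * (y ^ 2) ^ 4 := by ring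
      _ ≤ _ := e2
  have hxK : 2 * x * y ≤ K := by
    have e1 : (2 * x * y) ^ 5 ≤ (K : ℝ) ^ 5 := by
      have e2 : (2 * x * y) ^ 5 = 32 * (R₀ * K) * y ^ 5 := by
        rw [mul_pow, mul_pow, hx5]
        ring
      rw [e2]
      have e3 : 32 ≤ y ^ 3 := by
        have := pow_le_pow_left₀ (by norm_num) hy6 3
        norm_num at this
        linarith
      calc 32 * (R₀ * K) * y ^ 5 ≤ y ^ 3 * (R₀ * K) * y ^ 5 := by gcongr
        _ = (R₀ * y ^ 8) * K := by ring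
        _ ≤ (K : ℝ) ^ 4 * K := mul_le_mul_of_nonneg_right hK4 hK0.le
        _ = (K : ℝ) ^ 5 := by ring
    exact (pow_le_pow_iff_left₀ (by positivity) hK0.le (by norm_num)).1 e1
  have hKQy : y ≤ (K : ℝ) / Q := by
    rw [le_div_iff₀ hQ0]
    calc y * Q ≤ y * (2 * x) := mul_le_mul_of_nonneg_left hQ2 hy0.le
      _ = 2 * x * y := by ring
      _ ≤ K := hxK
  have hR4 : 4 ≤ R₀ := by
    have e1 : R₀ ^ (2 * ε) ≤ R₀ := by
      nth_rw 2 [← Real.rpow_one R₀]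
      exact Real.rpow_le_rpow_of_exponent_le hR₀ (by linarith)
    linarith
  have hK3 : 4 * (K : ℝ) ^ 3 ≤ c₁ * R₀ := by
    have e1 : (K : ℝ) ^ 3 ≤ (R₀ ^ (1 / 3 - ε)) ^ 3 := pow_le_pow_left₀ hK0.le h4 3
    have e2 : (R₀ ^ (1 / 3 - ε)) ^ 3 * (R₀ ^ (3 * ε)) = R₀ := by
      rw [← Real.rpow_natCast, ← Real.rpow_mul hR0.le, ← Real.rpow_add hR0]
      nth_rw 2 [← Real.rpow_one R₀]
      congr 1
      push_cast
      ring
    have e3 : 512 / c₁ ≤ R₀ ^ (3 * ε) := by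
      have : R₀ ^ (2 * ε) ≤ R₀ ^ (3 * ε) := Real.rpow_le_rpow_of_exponent_le hR₀ (by linarith)
      linarith
    rw [div_le_iff₀ hc] at e3
    have e4 : 0 < (R₀ ^ (1 / 3 - ε)) ^ 3 := by positivity
    calc 4 * (K : ℝ) ^ 3 ≤ 512 * (R₀ ^ (1 / 3 - ε)) ^ 3 := by linarith
      _ ≤ (R₀ ^ (3 * ε) * c₁) * (R₀ ^ (1 / 3 - ε)) ^ 3 := mul_le_mul_of_nonneg_right e3 e4.le
      _ = c₁ * ((R₀ ^ (1 / 3 - ε)) ^ 3 * R₀ ^ (3 * ε)) := by ring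
      _ = c₁ * R₀ := by rw [e2]
  have hKR3 : (K : ℝ) ^ 3 ≤ R₀ := by
    have e1 : (K : ℝ) ^ 3 ≤ (R₀ ^ (1 / 3 - ε)) ^ 3 := pow_le_pow_left₀ hK0.le h4 3
    have e2 : (R₀ ^ (1 / 3 - ε)) ^ 3 = R₀ ^ (1 - 3 * ε) := by
      rw [← Real.rpow_natCast, ← Real.rpow_mul hR0.le]
      congr 1
      push_cast
      ring
    have e3 : R₀ ^ (1 - 3 * ε) ≤ R₀ := by
      nth_rw 2 [← Real.rpow_one R₀]
      exact Real.rpow_le_rpow_of_exponent_le hR₀ (by linarith)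
    rw [e2] at e1
    linarith
  have hQ5 : R₀ * K ≤ (Q : ℝ) ^ 5 := by
    rw [← hx5]
    exact pow_le_pow_left₀ hx0.le hQx 5
  have hQ5' : (Q : ℝ) ^ 5 ≤ 32 * (R₀ * K) := by
    rw [← hx5]
    calc (Q : ℝ) ^ 5 ≤ (2 * x) ^ 5 := pow_le_pow_left₀ hQ0.le hQ2 5
      _ = 32 * x ^ 5 := by ring
  have hRK2 : R₀ * K ≤ R * K := mul_le_mul_of_nonneg_right h1 hK0.le
  have hRK3 : R * K ≤ 2 * (R₀ * K) := by nlinarith
  have hxK1 : x ≤ K := by nlinarith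
  have hQK : (Q : ℝ) ≤ K := by nlinarith
  refine ⟨Q, x, hx, hx1, hx5, hQx, hQ2, ?_, ?_, ?_, ?_, ?_, ?_, ?_, ?_, ?_⟩
  · have : (1536 : ℝ) ≤ Q := by linarith
    exact_mod_cast this
  · exact_mod_cast hQK
  · rw [div_pow, div_le_iff₀ (by positivity)]
    calc (K : ℝ) ^ 4 = (K : ℝ) ^ 3 * K := by ring
      _ ≤ R₀ * K := mul_le_mul_of_nonneg_right hKR3 hK0.le
      _ ≤ (Q : ℝ) ^ 5 := hQ5
      _ = (Q : ℝ) * (Q : ℝ) ^ 4 := by ring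
  · linarith [show (0 : ℝ) ≤ (Q : ℝ) ^ 5 by positivity]
  · linarith
  · have e1 : 512 / c₁ ≤ Q := by linarith
    rw [div_le_iff₀ hc] at e1
    linarith
  · have e1 : 12 * B / c₁ ≤ Q := by linarith
    rw [div_le_iff₀ hc] at e1
    linarith
  · refine hK3.trans ?_
    exact mul_le_mul_of_nonneg_left h1 hc.le
  · have e1 : y ^ (6 / ε) ≤ ((K : ℝ) / Q) ^ (6 / ε) := Real.rpow_le_rpow hy0.le hKQy (by positivity)
    have e2 : y ^ (6 / ε) = R₀ ^ 3 := by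
      rw [hy, ← Real.rpow_mul hR0.le, ← Real.rpow_natCast]
      congr 1
      push_cast
      field_simp
      norm_num
    rw [e2] at e1
    refine le_trans ?_ e1
    have e3 : R ^ 2 ≤ (2 * R₀) ^ 2 := pow_le_pow_left₀ (by linarith) h2 2
    nlinarith

open Classical in
/-- the classes -/
private noncomputable def En50 (K Q : ℕ) (f : ℤ × ℤ → ℤ × ℤ) (m : ℕ) : Finset (ℤ × ℤ) :=
  (oct K).filter fun k => ((f k).1 : ℝ) ≤ Q / 2 ^ m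

open Classical in
private noncomputable def On50 (K Q : ℕ) (f : ℤ × ℤ → ℤ × ℤ) (m : ℕ) : Finset (ℤ × ℤ) :=
  (oct K).filter fun k => (Q : ℝ) / 2 ^ (m + 1) < ((f k).1 : ℝ) ∧ ((f k).1 : ℝ) ≤ Q / 2 ^ m

private theorem split50 (K Q : ℕ) (f : ℤ × ℤ → ℤ × ℤ) (i : ℕ) (W : ℝ → ℂ) (φ : ℝ → ℝ) (R : ℝ)
    (c : ℝ × ℝ) (m : ℕ) :
    os (En50 K Q f m) K i W φ R c =
      os (En50 K Q f (m + 1)) K i W φ R c + os (On50 K Q f m) K i W φ R c := by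
  classical
  unfold os
  rw [← Finset.sum_filter_add_sum_filter_not (En50 K Q f m)
    (fun k => ((f k).1 : ℝ) ≤ Q / 2 ^ (m + 1))]
  have hle : (Q : ℝ) / 2 ^ (m + 1) ≤ Q / 2 ^ m :=
    div_le_div_of_nonneg_left (Nat.cast_nonneg Q) (by positivity)
      (pow_le_pow_right₀ one_le_two (Nat.le_succ m))
  congr 1
  · refine Finset.sum_congr ?_ fun _ _ => rfl
    ext k
    unfold En50
    rw [Finset.mem_filter, Finset.mem_filter, Finset.mem_filter]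
    exact ⟨fun h => ⟨h.1.1, h.2⟩, fun h => ⟨⟨h.1, h.2.trans hle⟩, h.2⟩⟩
  · refine Finset.sum_congr ?_ fun _ _ => rfl
    ext k
    unfold En50 On50
    rw [Finset.mem_filter, Finset.mem_filter, Finset.mem_filter, not_le]
    exact ⟨fun h => ⟨h.1.1, h.2, h.1.2⟩, fun h => ⟨⟨h.1, h.2.2⟩, h.2.1⟩⟩

private theorem splits50 {K Q : ℕ} {f : ℤ × ℤ → ℤ × ℤ} (hf : ∀ k ∈ oct K, ((f k).1 : ℝ) ≤ Q)
    (i : ℕ) (W : ℝ → ℂ) (φ : ℝ → ℝ) (R : ℝ) (c : ℝ × ℝ) (m : ℕ) :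
    os (oct K) K i W φ R c = os (En50 K Q f m) K i W φ R c +
      ∑ j ∈ Finset.range m, os (On50 K Q f j) K i W φ R c := by
  classical
  induction m with
  | zero =>
    rw [Finset.sum_range_zero, add_zero]
    congr 1
    unfold En50
    rw [pow_zero, div_one]
    exact (Finset.filter_true_of_mem hf).symm
  | succ m ih =>
    rw [ih, split50, Finset.sum_range_succ]
    ring

private theorem fib50 {K Q : ℕ} (hQ : 3 ≤ Q) (hK : 1 ≤ K) {f : ℤ × ℤ → ℤ × ℤ}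
    (hf : ∀ k ∈ oct K, IsNd Q k (f k)) (i : ℕ) (W : ℝ → ℂ) (φ : ℝ → ℝ) (R : ℝ) (c : ℝ × ℝ) (j : ℕ) :
    ∃ V : Finset (ℤ × ℤ), (∀ n ∈ V, Good (Q / 2 ^ j) n) ∧
      ‖os (On50 K Q f j) K i W φ R c‖ ≤ ∑ n ∈ V, ‖os (sec K Q n) K i W φ R c‖ := by
  classical
  refine ⟨(On50 K Q f j).image f, ?_, ?_⟩
  · intro n hn
    obtain ⟨k, hk, rfl⟩ := Finset.mem_image.1 hn
    unfold On50 at hk
    obtain ⟨hk1, hk2, hk3⟩ := Finset.mem_filter.1 hk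
    obtain ⟨h1, -, h3, h4⟩ := mem_oct50 hk1
    have h5 := nd_range hQ (by omega) h3 h4 (hf k hk1)
    refine ⟨nd_coprime (hf k hk1), ?_, hk3, h5.1, h5.2.1⟩
    rw [pow_succ, ← div_div] at hk2
    exact hk2
  · have h1 : os (On50 K Q f j) K i W φ R c =
        ∑ n ∈ (On50 K Q f j).image f, os (sec K Q n) K i W φ R c := by
      unfold os
      rw [← Finset.sum_fiberwise_of_maps_to (s := On50 K Q f j) (t := (On50 K Q f j).image f)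
        (g := f) (fun k hk => Finset.mem_image_of_mem f hk)]
      refine Finset.sum_congr rfl fun n hn => ?_
      refine Finset.sum_congr ?_ fun _ _ => rfl
      obtain ⟨k₀, hk₀, rfl⟩ := Finset.mem_image.1 hn
      unfold On50 at hk₀
      obtain ⟨-, h2⟩ := Finset.mem_filter.1 hk₀
      ext k
      unfold On50 sec
      rw [Finset.mem_filter, Finset.mem_filter, Finset.mem_filter]
      constructor
      · rintro ⟨⟨h3, -⟩, h4⟩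
        refine ⟨h3, ?_⟩
        rw [← h4]
        exact hf k h3
      · rintro ⟨h3, h4⟩
        have h5 := (mem_oct50 h3).1
        have h6 : f k = f k₀ := nd_unique hQ (by omega) (hf k h3) h4
        refine ⟨⟨h3, ?_⟩, h6⟩
        rw [h6]
        exact h2
    rw [h1]
    exact norm_sum_le _ _

/-- one class -/
private theorem cls50 {ε C₁ : ℝ} (hε : 0 < ε) (hC₁ : 0 < C₁) {R₀ R x S : ℝ} {K Q : ℕ}
    (hR₀ : 1 ≤ R₀) (h2 : R ≤ 2 * R₀) (hK : (1 : ℝ) ≤ K) (hKR : (K : ℝ) ≤ R₀)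
    (hx : x = (R₀ * K) ^ (1 / 5 : ℝ)) (hx1 : 1 ≤ x) (hx5 : x ^ 5 = R₀ * K) (hQ2 : (Q : ℝ) ≤ 2 * x)
    (hS : S ^ 12 ≤ C₁ * (K : ℝ) ^ ε * (R * (K : ℝ) ^ 15 * (Q : ℝ) ^ 5 + (K : ℝ) ^ 20 * (Q : ℝ) ^ 3)) :
    S ≤ (1 + 64 * C₁) * R₀ ^ (ε / 12) *
      ((K : ℝ) ^ (4 / 3 : ℝ) * R₀ ^ (1 / 6 : ℝ) + (K : ℝ) ^ (5 / 3 : ℝ) * (R₀ * K) ^ (1 / 20 : ℝ)) := by
  have hR0 : 0 < R₀ := by linarith
  have hK0 : (0 : ℝ) < K := by linarith
  have hx0 : 0 < x := by linarith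
  have hRK0 : 0 ≤ R₀ * K := by positivity
  obtain ⟨a, ha⟩ : ∃ a : ℝ, a = (K : ℝ) ^ (4 / 3 : ℝ) * R₀ ^ (1 / 6 : ℝ) := ⟨_, rfl⟩
  obtain ⟨b, hb⟩ : ∃ b : ℝ, b = (K : ℝ) ^ (5 / 3 : ℝ) * (R₀ * K) ^ (1 / 20 : ℝ) := ⟨_, rfl⟩
  rw [← ha, ← hb]
  have ha0 : 0 ≤ a := by
    rw [ha]
    positivity
  have hb0 : 0 ≤ b := by
    rw [hb]
    positivity
  have ha12 : a ^ 12 = (K : ℝ) ^ 16 * R₀ ^ 2 := by
    rw [ha, mul_pow, ← Real.rpow_natCast, ← Real.rpow_natCast, ← Real.rpow_mul hK0.le, ← Real.rpow_mul hR0.le,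
      ← Real.rpow_natCast, ← Real.rpow_natCast]
    norm_num
  have hb12 : b ^ 12 = (K : ℝ) ^ 20 * x ^ 3 := by
    rw [hb, hx, mul_pow, ← Real.rpow_natCast, ← Real.rpow_natCast, ← Real.rpow_natCast, ← Real.rpow_natCast,
      ← Real.rpow_mul hK0.le, ← Real.rpow_mul hRK0, ← Real.rpow_mul hRK0]
    norm_num
  have hpos : 0 ≤ (1 + 64 * C₁) * R₀ ^ (ε / 12) * (a + b) := by positivity
  have e6 : ((1 + 64 * C₁) * R₀ ^ (ε / 12) * (a + b)) ^ 12 = (1 + 64 * C₁) ^ 12 * R₀ ^ ε * (a + b) ^ 12 := by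
    have a1 : (R₀ ^ (ε / 12)) ^ 12 = R₀ ^ ε := by
      rw [← Real.rpow_natCast, ← Real.rpow_mul hR0.le]
      congr 1
      push_cast
      ring
    rw [mul_pow, mul_pow, a1]
  by_contra hcon
  push Not at hcon
  have h6 := pow_lt_pow_left₀ hcon hpos (n := 12) (by norm_num)
  rw [e6] at h6
  have h7 := h6.trans_le hS
  refine absurd h7 (not_lt.2 ?_)
  have b1 : (K : ℝ) ^ ε ≤ R₀ ^ ε := Real.rpow_le_rpow hK0.le hKR hε.le
  have hQ5 : (Q : ℝ) ^ 5 ≤ 32 * (R₀ * K) := by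
    rw [← hx5]
    calc (Q : ℝ) ^ 5 ≤ (2 * x) ^ 5 := pow_le_pow_left₀ (Nat.cast_nonneg Q) hQ2 5
      _ = 32 * x ^ 5 := by ring
  have hQ3 : (Q : ℝ) ^ 3 ≤ 8 * x ^ 3 := by
    calc (Q : ℝ) ^ 3 ≤ (2 * x) ^ 3 := pow_le_pow_left₀ (Nat.cast_nonneg Q) hQ2 3
      _ = 8 * x ^ 3 := by ring
  have b2 : R * (K : ℝ) ^ 15 * (Q : ℝ) ^ 5 ≤ 64 * a ^ 12 := by
    rw [ha12]
    calc R * (K : ℝ) ^ 15 * (Q : ℝ) ^ 5 ≤ 2 * R₀ * (K : ℝ) ^ 15 * (32 * (R₀ * K)) := by gcongr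
      _ = 64 * ((K : ℝ) ^ 16 * R₀ ^ 2) := by ring
  have b3 : (K : ℝ) ^ 20 * (Q : ℝ) ^ 3 ≤ 64 * b ^ 12 := by
    rw [hb12]
    calc (K : ℝ) ^ 20 * (Q : ℝ) ^ 3 ≤ (K : ℝ) ^ 20 * (8 * x ^ 3) := by gcongr
      _ = 8 * ((K : ℝ) ^ 20 * x ^ 3) := by ring
      _ ≤ 64 * ((K : ℝ) ^ 20 * x ^ 3) := by
          have : 0 ≤ (K : ℝ) ^ 20 * x ^ 3 := by positivity
          linarith
  have b5 : a ^ 12 + b ^ 12 ≤ (a + b) ^ 12 := pow_add_pow_le ha0 hb0 (by norm_num)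
  have b4 : 64 * C₁ ≤ (1 + 64 * C₁) ^ 12 := by
    have c1 : 1 ≤ 1 + 64 * C₁ := by linarith
    calc 64 * C₁ ≤ 1 + 64 * C₁ := by linarith
      _ = (1 + 64 * C₁) ^ 1 := (pow_one _).symm
      _ ≤ (1 + 64 * C₁) ^ 12 := pow_le_pow_right₀ c1 (by norm_num)
  calc C₁ * (K : ℝ) ^ ε * (R * (K : ℝ) ^ 15 * (Q : ℝ) ^ 5 + (K : ℝ) ^ 20 * (Q : ℝ) ^ 3)
      ≤ C₁ * (K : ℝ) ^ ε * (64 * (a + b) ^ 12) := by
        refine mul_le_mul_of_nonneg_left ?_ (by positivity)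
        linarith
    _ ≤ C₁ * R₀ ^ ε * (64 * (a + b) ^ 12) := by gcongr
    _ = 64 * C₁ * R₀ ^ ε * (a + b) ^ 12 := by ring
    _ ≤ (1 + 64 * C₁) ^ 12 * R₀ ^ ε * (a + b) ^ 12 := by gcongr

/-- the rest -/
private theorem rest50 {C₂ : ℝ} (hC₂ : 0 < C₂) {R₀ x V : ℝ} {K Q : ℕ} {b : ℝ} (hR₀ : 1 ≤ R₀)
    (hK : (1 : ℝ) ≤ K) (hx : x = (R₀ * K) ^ (1 / 5 : ℝ)) (hx1 : 1 ≤ x) (hQx : x ≤ Q)
    (hQ2 : (Q : ℝ) ≤ 2 * x) (hV : V = ((K : ℝ) / Q) ^ (5 / 6 : ℝ)) (hb : V ≤ b) :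
    C₂ * (K : ℝ) ^ 2 * (Q / b) / Q ≤ 2 * C₂ *
      ((K : ℝ) ^ (4 / 3 : ℝ) * R₀ ^ (1 / 6 : ℝ) + (K : ℝ) ^ (5 / 3 : ℝ) * (R₀ * K) ^ (1 / 20 : ℝ)) := by
  have hR0 : 0 < R₀ := by linarith
  have hK0 : (0 : ℝ) < K := by linarith
  have hx0 : 0 < x := by linarith
  have hQ0 : (0 : ℝ) < Q := by linarith
  have hRK0 : 0 ≤ R₀ * K := by positivity
  have hV0 : 0 < V := by
    rw [hV]
    positivity
  have hb0 : 0 < b := by linarith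
  have e1 : C₂ * (K : ℝ) ^ 2 * (Q / b) / Q = C₂ * ((K : ℝ) ^ 2 / b) := by
    field_simp
  have e2 : (K : ℝ) ^ 2 / b ≤ (K : ℝ) ^ 2 / V := div_le_div_of_nonneg_left (by positivity) hV0 hb
  have e3 : (K : ℝ) ^ 2 / V = (K : ℝ) ^ (7 / 6 : ℝ) * (Q : ℝ) ^ (5 / 6 : ℝ) := by
    rw [div_eq_iff hV0.ne', hV, Real.div_rpow hK0.le hQ0.le]
    have hQ3 : (Q : ℝ) ^ (5 / 6 : ℝ) ≠ 0 := (Real.rpow_pos_of_pos hQ0 _).ne'
    have e4 : (K : ℝ) ^ 2 = (K : ℝ) ^ (7 / 6 : ℝ) * (K : ℝ) ^ (5 / 6 : ℝ) := by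
      rw [← Real.rpow_add hK0]
      norm_num
    rw [e4]
    field_simp
  have e5 : (Q : ℝ) ^ (5 / 6 : ℝ) ≤ 2 * (R₀ ^ (1 / 6 : ℝ) * (K : ℝ) ^ (1 / 6 : ℝ)) := by
    have c1 : x ^ (5 / 6 : ℝ) = R₀ ^ (1 / 6 : ℝ) * (K : ℝ) ^ (1 / 6 : ℝ) := by
      rw [hx, ← Real.rpow_mul hRK0, ← Real.mul_rpow hR0.le hK0.le]
      norm_num
    have c2 : (2 : ℝ) ^ (5 / 6 : ℝ) ≤ 2 := by
      calc (2 : ℝ) ^ (5 / 6 : ℝ) ≤ (2 : ℝ) ^ (1 : ℝ) :=
            Real.rpow_le_rpow_of_exponent_le (by norm_num) (by norm_num)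
        _ = 2 := Real.rpow_one 2
    calc (Q : ℝ) ^ (5 / 6 : ℝ) ≤ (2 * x) ^ (5 / 6 : ℝ) := Real.rpow_le_rpow hQ0.le hQ2 (by norm_num)
      _ = 2 ^ (5 / 6 : ℝ) * x ^ (5 / 6 : ℝ) := Real.mul_rpow (by norm_num) hx0.le
      _ ≤ 2 * (R₀ ^ (1 / 6 : ℝ) * (K : ℝ) ^ (1 / 6 : ℝ)) := by
        rw [c1]
        exact mul_le_mul_of_nonneg_right c2 (by positivity)
  have e6 : (K : ℝ) ^ (7 / 6 : ℝ) * (K : ℝ) ^ (1 / 6 : ℝ) = (K : ℝ) ^ (4 / 3 : ℝ) := by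
    rw [← Real.rpow_add hK0]
    norm_num
  have e7 : 0 ≤ (K : ℝ) ^ (5 / 3 : ℝ) * (R₀ * K) ^ (1 / 20 : ℝ) := by positivity
  rw [e1]
  calc C₂ * ((K : ℝ) ^ 2 / b) ≤ C₂ * ((K : ℝ) ^ (7 / 6 : ℝ) * (Q : ℝ) ^ (5 / 6 : ℝ)) := by
        rw [← e3]
        exact mul_le_mul_of_nonneg_left e2 hC₂.le
    _ ≤ C₂ * ((K : ℝ) ^ (7 / 6 : ℝ) * (2 * (R₀ ^ (1 / 6 : ℝ) * (K : ℝ) ^ (1 / 6 : ℝ)))) := by
        gcongr
    _ = 2 * C₂ * (((K : ℝ) ^ (7 / 6 : ℝ) * (K : ℝ) ^ (1 / 6 : ℝ)) * R₀ ^ (1 / 6 : ℝ)) := by ring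
    _ = 2 * C₂ * ((K : ℝ) ^ (4 / 3 : ℝ) * R₀ ^ (1 / 6 : ℝ)) := by rw [e6]
    _ ≤ _ := mul_le_mul_of_nonneg_left (by linarith) (by positivity)

theorem oct_gen12 (hM12 : M12Prop) {ε c₁ B : ℝ} (hε : 0 < ε) (hε1 : ε ≤ 1 / 1000) (hc : 0 < c₁) (hB : 1 ≤ B) : ∃ C : ℝ, 0 < C ∧
    ∀ (φ : ℝ → ℝ) (W : ℝ → ℂ), Cn c₁ B φ → Cw B W → ∀ (R₀ R : ℝ) (K : ℕ), 1 ≤ R₀ → R₀ ≤ R → R ≤ 2 * R₀ →
    R₀ ^ (1 / 4 + ε) ≤ K → (K : ℝ) ≤ R₀ ^ (1 / 3 - ε) → ∀ i : ℕ, (i = 1 ∨ i = 2) → ∀ c : ℝ × ℝ,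
      ‖os (oct K) K i W φ R c‖ ≤ C * R₀ ^ ε *
        ((K : ℝ) ^ (4 / 3 : ℝ) * R₀ ^ (1 / 6 : ℝ) + (K : ℝ) ^ (5 / 3 : ℝ) * (R₀ * K) ^ (1 / 20 : ℝ)) := by
  classical
  obtain ⟨C₁, R₁, hC₁, hR₁, hcls⟩ := class_bound12 hM12 hε hc hB 128 (6 / ε) (by positivity)
  obtain ⟨C₂, hC₂, hsm⟩ := small_q
  have hB0 : 0 < B := by linarith
  obtain ⟨m, hm⟩ : ∃ m : ℝ, m = 1536 + 512 / c₁ + 12 * B / c₁ + R₁ := ⟨_, rfl⟩
  have hm0 : 0 < m := by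
    rw [hm]
    positivity
  refine ⟨(4 / ε + 1) * (1 + 64 * C₁) + 2 * B * C₂ + 25 * B * m ^ (1 / (2 * ε)), by positivity, ?_⟩
  intro φ W hφ hW R₀ R K hR₀ h1 h2 h3 h4 i hi c
  have hR0 : 0 < R₀ := by linarith
  have hK1 : (1 : ℝ) ≤ K := (Real.one_le_rpow hR₀ (by linarith)).trans h3
  have hKn : 1 ≤ K := by exact_mod_cast hK1
  have hK0 : (0 : ℝ) < K := by linarith
  obtain ⟨M, hM⟩ : ∃ M : ℝ, M = (K : ℝ) ^ (4 / 3 : ℝ) * R₀ ^ (1 / 6 : ℝ) +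
      (K : ℝ) ^ (5 / 3 : ℝ) * (R₀ * K) ^ (1 / 20 : ℝ) := ⟨_, rfl⟩
  have hM1 : 1 ≤ M := by
    rw [hM]
    have a1 : 1 ≤ (K : ℝ) ^ (4 / 3 : ℝ) := Real.one_le_rpow hK1 (by norm_num)
    have a2 : 1 ≤ R₀ ^ (1 / 6 : ℝ) := Real.one_le_rpow hR₀ (by norm_num)
    have a3 := one_le_mul_of_one_le_of_one_le a1 a2
    have a4 : 0 ≤ (K : ℝ) ^ (5 / 3 : ℝ) * (R₀ * K) ^ (1 / 20 : ℝ) := by positivity
    linarith
  have hRe : 1 ≤ R₀ ^ ε := Real.one_le_rpow hR₀ hε.le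
  have hgoal : ‖os (oct K) K i W φ R c‖ ≤ ((4 / ε + 1) * (1 + 64 * C₁) + 2 * B * C₂ +
      25 * B * m ^ (1 / (2 * ε))) * R₀ ^ ε * M := by
    by_cases hBm : m ≤ R₀ ^ (2 * ε)
    · have hR₁R : R₁ ≤ R := by
        have e1 : R₀ ^ (2 * ε) ≤ R₀ := by
          nth_rw 2 [← Real.rpow_one R₀]
          exact Real.rpow_le_rpow_of_exponent_le hR₀ (by linarith)
        have e2 : R₁ ≤ m := by
          rw [hm]
          have e3 : 0 ≤ 512 / c₁ := by positivity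
          have e4 : 0 ≤ 12 * B / c₁ := by positivity
          linarith
        linarith
      obtain ⟨Q, x, hx, hx1, hx5, hQx, hQ2, hQ, hQK, hT4, hq1, hq2, hq3, hq4, hA3, hA6⟩ :=
        par50 hε hε1 hc hB hR₀ h1 h2 h3 h4 (by
          have : 1536 + 512 / c₁ + 12 * B / c₁ ≤ m := by
            rw [hm]
            linarith
          linarith)
      have hQ0 : (0 : ℝ) < Q := by linarith
      have hT1 : 1 ≤ (K : ℝ) / Q := by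
        rw [one_le_div hQ0]
        exact_mod_cast hQK
      have hTQ : (K : ℝ) / Q ≤ Q := by
        refine le_trans ?_ hT4
        calc (K : ℝ) / Q = ((K : ℝ) / Q) ^ 1 := (pow_one _).symm
          _ ≤ ((K : ℝ) / Q) ^ 4 := pow_le_pow_right₀ hT1 (by norm_num)
      have hQ13 : (Q : ℝ) ≤ (Q : ℝ) ^ 3 := by
        have hQ1 : (1 : ℝ) ≤ Q := by linarith
        calc (Q : ℝ) = (Q : ℝ) ^ 1 := (pow_one _).symm
          _ ≤ (Q : ℝ) ^ 3 := pow_le_pow_right₀ hQ1 (by norm_num)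
      obtain ⟨V, hV⟩ : ∃ V : ℝ, V = ((K : ℝ) / Q) ^ (5 / 6 : ℝ) := ⟨_, rfl⟩
      have hV1 : 1 ≤ V := by
        rw [hV]
        exact Real.one_le_rpow hT1 (by norm_num)
      have hVT : V ≤ (K : ℝ) / Q := by
        rw [hV]
        nth_rw 2 [← Real.rpow_one ((K : ℝ) / Q)]
        exact Real.rpow_le_rpow_of_exponent_le hT1 (by norm_num)
      have hV4 : V ^ 4 ≤ (Q : ℝ) ^ 3 :=
        ((pow_le_pow_left₀ (by linarith) hVT 4).trans hT4).trans hQ13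
      obtain ⟨I, hI1, hI2⟩ := exists_nat_pow_near hV1 (one_lt_two (α := ℝ))
      have hKR : (K : ℝ) ≤ R₀ := by
        refine h4.trans ?_
        nth_rw 2 [← Real.rpow_one R₀]
        exact Real.rpow_le_rpow_of_exponent_le hR₀ (by linarith)
      have hex : ∀ k ∈ oct K, ∃ n, IsNd Q k n ∧ n.1 ≤ Q := by
        intro k hk
        obtain ⟨a1, -, a3, a4⟩ := mem_oct50 hk
        exact nd_exists (by omega) (by omega) a3 a4
      choose! f hf using hex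
      have hfQ : ∀ k ∈ oct K, ((f k).1 : ℝ) ≤ Q := by
        intro k hk
        exact_mod_cast (hf k hk).2
      rw [splits50 hfQ i W φ R c (I + 1)]
      have hcl : ∀ j ∈ Finset.range (I + 1), ‖os (On50 K Q f j) K i W φ R c‖ ≤
          (1 + 64 * C₁) * R₀ ^ (ε / 12) * M := by
        intro j hj
        obtain ⟨V', hW1, hW2⟩ := fib50 (by omega) hKn (fun k hk => (hf k hk).1) i W φ R c j
        refine hW2.trans ?_
        have hAV : (2 : ℝ) ^ j ≤ V :=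
          (pow_le_pow_right₀ one_le_two (Nat.lt_succ_iff.1 (Finset.mem_range.1 hj))).trans hI1
        have hA1 : (1 : ℝ) ≤ 2 ^ j := one_le_pow₀ one_le_two
        rw [hM]
        refine cls50 hε hC₁ hR₀ h2 hK1 hKR hx hx1 hx5 hQ2 ?_
        exact hcls φ W hφ hW K Q (2 ^ j) R (by omega) hQK hA1 hR₁R hA6 (by linarith) hq4
          ((hAV.trans hVT).trans hTQ)
          ((pow_le_pow_left₀ (by positivity) hAV 4).trans hV4) (by linarith) hq1 hq2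
          hA3 i hi c V' hW1
      have hsum : ‖∑ j ∈ Finset.range (I + 1), os (On50 K Q f j) K i W φ R c‖ ≤
          ((I : ℝ) + 1) * ((1 + 64 * C₁) * R₀ ^ (ε / 12) * M) := by
        refine (norm_sum_le _ _).trans ((Finset.sum_le_card_nsmul _ _ _ hcl).trans (le_of_eq ?_))
        rw [Finset.card_range, nsmul_eq_mul]
        push_cast
        ring
      have hsub : En50 K Q f (I + 1) ⊆ oct K := Finset.filter_subset _ _
      have hcard : ((En50 K Q f (I + 1)).card : ℝ) ≤ 2 * C₂ * M := by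
        by_cases hP : 1 ≤ (Q : ℝ) / 2 ^ (I + 1)
        · refine (hsm K Q ((Q : ℝ) / 2 ^ (I + 1)) (by omega) hQK hP _ ?_).trans ?_
          · intro k hk
            have hk' := hk
            unfold En50 at hk'
            obtain ⟨a1, a2⟩ := Finset.mem_filter.1 hk'
            obtain ⟨b1, b2, b3, b4⟩ := mem_oct50 a1
            exact ⟨b1, b2, b3, b4, f k, (hf k a1).1, a2⟩
          · rw [hM]
            exact rest50 hC₂ hR₀ hK1 hx hx1 hQx hQ2 hV hI2.le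
        · have hem : En50 K Q f (I + 1) = ∅ := by
            rw [Finset.eq_empty_iff_forall_notMem]
            intro k hk
            unfold En50 at hk
            obtain ⟨a1, a2⟩ := Finset.mem_filter.1 hk
            apply hP
            refine le_trans ?_ a2
            exact_mod_cast (hf k a1).1.1
          rw [hem, Finset.card_empty, Nat.cast_zero]
          positivity
      have hrest : ‖os (En50 K Q f (I + 1)) K i W φ R c‖ ≤ 2 * B * C₂ * M := by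
        refine (os_card50 hW φ hKn hsub i R c).trans ?_
        calc B * ((En50 K Q f (I + 1)).card : ℝ) ≤ B * (2 * C₂ * M) :=
              mul_le_mul_of_nonneg_left hcard hB0.le
          _ = 2 * B * C₂ * M := by ring
      have hIR : (I : ℝ) + 1 ≤ (4 / ε + 1) * R₀ ^ (ε / 2) := by
        have a1 : (2 : ℝ) ^ I ≤ R₀ := by
          refine hI1.trans (hVT.trans (le_trans ?_ hKR))
          exact div_le_self hK0.le (by linarith)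
        have a2 : (I : ℝ) * Real.log 2 ≤ Real.log R₀ := by
          rw [← Real.log_pow]
          exact Real.log_le_log (by positivity) a1
        have a3 : Real.log R₀ ≤ R₀ ^ (ε / 2) / (ε / 2) := Real.log_le_rpow_div hR0.le (by positivity)
        have a4 : 1 / 2 ≤ Real.log 2 := by
          have := Real.log_two_gt_d9
          linarith
        have a5 : 1 ≤ R₀ ^ (ε / 2) := Real.one_le_rpow hR₀ (by positivity)
        have a6 : (I : ℝ) * (1 / 2) ≤ R₀ ^ (ε / 2) / (ε / 2) :=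
          (mul_le_mul_of_nonneg_left a4 (Nat.cast_nonneg I)).trans (a2.trans a3)
        have a7 : R₀ ^ (ε / 2) / (ε / 2) = 2 / ε * R₀ ^ (ε / 2) := by
          field_simp
        rw [a7] at a6
        have a8 : (4 / ε + 1) * R₀ ^ (ε / 2) = 2 * (2 / ε * R₀ ^ (ε / 2)) + R₀ ^ (ε / 2) := by ring
        rw [a8]
        linarith
      have hexp : R₀ ^ (ε / 2) * R₀ ^ (ε / 12) ≤ R₀ ^ ε := by
        rw [← Real.rpow_add hR0]
        exact Real.rpow_le_rpow_of_exponent_le hR₀ (by linarith)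
      have hM0 : 0 ≤ M := by linarith
      calc ‖os (En50 K Q f (I + 1)) K i W φ R c +
            ∑ j ∈ Finset.range (I + 1), os (On50 K Q f j) K i W φ R c‖
          ≤ 2 * B * C₂ * M + ((I : ℝ) + 1) * ((1 + 64 * C₁) * R₀ ^ (ε / 12) * M) :=
            (norm_add_le _ _).trans (add_le_add hrest hsum)
        _ ≤ 2 * B * C₂ * M + (4 / ε + 1) * R₀ ^ (ε / 2) * ((1 + 64 * C₁) * R₀ ^ (ε / 12) * M) := by
            gcongr
        _ = 2 * B * C₂ * 1 * M + (4 / ε + 1) * (1 + 64 * C₁) * (R₀ ^ (ε / 2) * R₀ ^ (ε / 12)) * M := by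
            ring
        _ ≤ 2 * B * C₂ * R₀ ^ ε * M + (4 / ε + 1) * (1 + 64 * C₁) * R₀ ^ ε * M := by
            gcongr
        _ = ((4 / ε + 1) * (1 + 64 * C₁) + 2 * B * C₂) * (R₀ ^ ε * M) := by ring
        _ ≤ ((4 / ε + 1) * (1 + 64 * C₁) + 2 * B * C₂ + 25 * B * m ^ (1 / (2 * ε))) *
            (R₀ ^ ε * M) := by
            refine mul_le_mul_of_nonneg_right ?_ (by positivity)
            have : 0 ≤ 25 * B * m ^ (1 / (2 * ε)) := by positivity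
            linarith
        _ = _ := by ring
    · push Not at hBm
      have a1 : R₀ ≤ m ^ (1 / (2 * ε)) := by
        have e1 : R₀ = (R₀ ^ (2 * ε)) ^ (1 / (2 * ε)) := by
          rw [← Real.rpow_mul hR0.le, mul_one_div_cancel (by positivity), Real.rpow_one]
        rw [e1]
        exact Real.rpow_le_rpow (by positivity) hBm.le (by positivity)
      have a2 : (K : ℝ) ^ 2 ≤ R₀ := by
        calc (K : ℝ) ^ 2 ≤ (R₀ ^ (1 / 3 - ε)) ^ 2 := pow_le_pow_left₀ hK0.le h4 2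
          _ = R₀ ^ ((1 / 3 - ε) * 2) := by
              rw [← Real.rpow_natCast, ← Real.rpow_mul hR0.le]
              norm_num
          _ ≤ R₀ ^ (1 : ℝ) := Real.rpow_le_rpow_of_exponent_le hR₀ (by linarith)
          _ = R₀ := Real.rpow_one _
      have a3 : ‖os (oct K) K i W φ R c‖ ≤ B * (25 * (K : ℝ) ^ 2) :=
        (os_card50 hW φ hKn (Finset.Subset.refl (oct K)) i R c).trans
          (mul_le_mul_of_nonneg_left (oct_card50 hKn) hB0.le)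
      have a4 : (1 : ℝ) ≤ R₀ ^ ε * M := one_le_mul_of_one_le_of_one_le hRe hM1
      calc ‖os (oct K) K i W φ R c‖ ≤ B * (25 * (K : ℝ) ^ 2) := a3
        _ ≤ B * (25 * m ^ (1 / (2 * ε))) := by
            refine mul_le_mul_of_nonneg_left ?_ hB0.le
            linarith
        _ ≤ (4 / ε + 1) * (1 + 64 * C₁) + 2 * B * C₂ + 25 * B * m ^ (1 / (2 * ε)) := by
            have : 0 ≤ (4 / ε + 1) * (1 + 64 * C₁) + 2 * B * C₂ := by positivity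
            linarith
        _ ≤ ((4 / ε + 1) * (1 + 64 * C₁) + 2 * B * C₂ + 25 * B * m ^ (1 / (2 * ε))) *
            (R₀ ^ ε * M) :=
            le_mul_of_one_le_right (by positivity) a4
        _ = _ := by ring
  rw [hM] at hgoal
  exact hgoal

end Pool.Agent.Helper92.DT
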