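import Pool.Agent.Helper22.D3.Fin38
import Pool.Agent.Helper92.DT.O6

/-!
# `WP4` of the plan for exponent 38/61, from the twelfth moment of helper76
-/

set_option autoImplicit false

namespace Pool.Agent.Helper92.DT

open Pool.Agent.Helper92.GC (oct)
open Pool.Agent.Helper22.OV (osum)
open Pool.Agent.Helper76.OV (Cw Cn os)

/-- the class sums with twelfth moments, in the form of the assembly -/
theorem wp4 (hM : M12Prop) : Pool.Agent.Helper22.D3.WP4 := by
  intro e c₁ B he he1 hc hB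
  obtain ⟨C, hC, h⟩ := oct_gen12 hM he he1 hc hB
  refine ⟨C, hC, ?_⟩
  intro φ W hφ X R K hX hXR hR hK hKu i hi c
  have hW : Cw B W := ⟨hφ.wb, hφ.wl⟩
  have hn : Cn c₁ B φ := ⟨hφ.smooth, hφ.lo, hφ.d2, hφ.d3, hφ.d4⟩
  have heq : osum K i W φ R c = os (oct K) K i W φ R c := rfl
  rw [heq]
  exact h φ W hn hW X R K hX hXR hR hK hKu i hi c

end Pool.Agent.Helper92.DT
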