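import Pool.Agent.Helper92.DT.R2

/-!
# DT-R3: multipliers of bounded variation
-/

open MeasureTheory Real Set Filter Topology

set_option autoImplicit false

namespace Pool.Agent.Helper92.DT

open Pool.Agent.Helper22.AE
open Pool.Agent.Helper92.GC

open Classical in
private theorem lip_aux {S : Finset (ℤ × ℤ)} {φ : ℤ × ℤ → ℝ} {A : ℝ}
    (hcut : ∀ z : ℝ, IsMul12 S (fun k => if z ≤ φ k then 1 else 0) A) {m : ℝ → ℂ} {x₁ x₂ L B : ℝ} (h12 : x₁ ≤ x₂)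
    (hB : ‖m x₁‖ ≤ B)
    (hL : ∀ x ∈ Icc x₁ x₂, ∀ y ∈ Icc x₁ x₂, ‖m x - m y‖ ≤ L * |x - y|) (V : Finset ℝ)
    (hV : ∀ v ∈ V, x₁ ≤ v ∧ v ≤ x₂) :
    ∃ (g : ℝ → ℂ) (y : ℝ), x₁ ≤ y ∧ y ≤ x₂ ∧ (y = x₁ ∨ y ∈ V) ∧ (∀ v ∈ V, g v = m v) ∧ (∀ x, y ≤ x → g x = m y) ∧
      IsMul12 S (fun k => g (φ k)) (B + A * (L * (y - x₁))) := by
  have hA : 0 ≤ A := (hcut 0).1
  induction V using Finset.induction_on_max with
  | empty =>
    refine ⟨fun _ => m x₁, x₁, le_rfl, h12, Or.inl rfl, ?_, fun _ _ => rfl, ?_⟩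
    · intro v hv
      exact absurd hv (Finset.notMem_empty v)
    · exact mul12_weaken (mul12_const S (m x₁)) (by rw [sub_self, mul_zero, mul_zero, add_zero]; exact hB)
  | insert w V hw ih =>
    obtain ⟨g, y, hy1, hy2, hyV, hg, hgy, hmul⟩ := ih (fun v hv => hV v (Finset.mem_insert_of_mem hv))
    obtain ⟨hw1, hw2⟩ := hV w (Finset.mem_insert_self w V)
    have hyw : y ≤ w := by
      rcases hyV with h | h
      · rw [h]; exact hw1
      · exact (hw y h).le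
    refine ⟨fun x => g x + (m w - m y) * (if w ≤ x then 1 else 0), w, hw1, hw2, Or.inr (Finset.mem_insert_self w V),
      ?_, ?_, ?_⟩
    · intro v hv
      rcases Finset.mem_insert.1 hv with h | h
      · subst h
        simp only [le_refl, if_true]
        rw [hgy v hyw]
        ring
      · have h1 : ¬ w ≤ v := not_le.2 (hw v h)
        simp only [if_neg h1]
        rw [hg v h]
        ring
    · intro x hx
      simp only [if_pos hx]
      rw [hgy x (hyw.trans hx)]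
      ring
    · have h1 : IsMul12 S (fun k => (m w - m y) * (if w ≤ φ k then 1 else 0)) (‖m w - m y‖ * A) :=
        mul12_comp (mul12_const S (m w - m y)) (hcut w)
      refine mul12_weaken (mul12_add hmul h1) ?_
      have h2 := hL w ⟨hw1, hw2⟩ y ⟨hy1, hy2⟩
      rw [abs_of_nonneg (sub_nonneg.2 hyw)] at h2
      have h3 : ‖m w - m y‖ * A ≤ L * (w - y) * A := mul_le_mul_of_nonneg_right h2 hA
      linarith [h3, show A * (L * (w - x₁)) = A * (L * (y - x₁)) + L * (w - y) * A by ring]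

open Classical in
theorem mul12_lip {S : Finset (ℤ × ℤ)} {φ : ℤ × ℤ → ℝ} {A : ℝ}
    (hcut : ∀ z : ℝ, IsMul12 S (fun k => if z ≤ φ k then 1 else 0) A) {m : ℝ → ℂ} {x₁ x₂ L B : ℝ} (h12 : x₁ ≤ x₂)
    (hφ : ∀ k ∈ S, x₁ ≤ φ k ∧ φ k ≤ x₂) (hB : ‖m x₁‖ ≤ B)
    (hL : ∀ x ∈ Icc x₁ x₂, ∀ y ∈ Icc x₁ x₂, ‖m x - m y‖ ≤ L * |x - y|) :
    IsMul12 S (fun k => m (φ k)) (B + A * (L * (x₂ - x₁))) := by
  have hA : 0 ≤ A := (hcut 0).1
  obtain ⟨g, y, hy1, hy2, -, hg, -, hmul⟩ := lip_aux hcut h12 hB hL (S.image φ) (by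
    intro v hv
    obtain ⟨k, hk, rfl⟩ := Finset.mem_image.1 hv
    exact hφ k hk)
  refine mul12_weaken (mul12_congr (fun k hk => hg (φ k) (Finset.mem_image_of_mem φ hk)) hmul) ?_
  have h1 := hL x₂ ⟨h12, le_rfl⟩ y ⟨hy1, hy2⟩
  rw [abs_of_nonneg (sub_nonneg.2 hy2)] at h1
  have h2 : 0 ≤ L * (x₂ - y) := (norm_nonneg _).trans h1
  have h3 : L * (y - x₁) ≤ L * (x₂ - x₁) := by nlinarith
  have h4 := mul_le_mul_of_nonneg_left h3 hA
  linarith

end Pool.Agent.Helper92.DT
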