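import Pool.Agent.Helper92.DT.Defs

/-!
# DT-R0: elementary facts about `m12`
-/

open MeasureTheory Real Set Filter Topology

set_option autoImplicit false

namespace Pool.Agent.Helper92.DT

open Pool.Agent.Helper22.AE
open Pool.Agent.Helper92.GC

theorem m12_nonneg (S : Finset (ℤ × ℤ)) (a : ℤ × ℤ → ℂ) : 0 ≤ m12 S a :=
  integral_nonneg fun _ => by positivity

theorem m12_congr {S : Finset (ℤ × ℤ)} {a b : ℤ × ℤ → ℂ} (h : ∀ k ∈ S, a k = b k) : m12 S a = m12 S b := by
  have h1 : tp S a = tp S b := by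
    funext c
    exact Finset.sum_congr rfl fun k hk => by rw [h k hk]
  unfold m12
  rw [h1]

open Classical in
theorem m12_filter (S : Finset (ℤ × ℤ)) (p : ℤ × ℤ → Prop) (a : ℤ × ℤ → ℂ) :
    m12 (S.filter p) a = m12 S (fun k => (if p k then 1 else 0) * a k) := by
  have h1 : tp (S.filter p) a = tp S (fun k => (if p k then 1 else 0) * a k) := by
    funext c
    unfold tp
    rw [Finset.sum_filter]
    refine Finset.sum_congr rfl fun k _ => ?_
    simp only
    by_cases hp : p k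
    · rw [if_pos hp, if_pos hp, one_mul]
    · rw [if_neg hp, if_neg hp, zero_mul, zero_mul]
  unfold m12
  rw [h1]

theorem m12_smul (S : Finset (ℤ × ℤ)) (z : ℂ) (a : ℤ × ℤ → ℂ) : m12 S (fun k => z * a k) = ‖z‖ ^ 12 * m12 S a := by
  have h1 : ∀ c, ‖tp S (fun k => z * a k) c‖ ^ 12 = ‖z‖ ^ 12 * ‖tp S a c‖ ^ 12 := by
    intro c
    have h2 : tp S (fun k => z * a k) c = z * tp S a c := by
      unfold tp
      rw [Finset.mul_sum]
      exact Finset.sum_congr rfl fun k _ => by ring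
    rw [h2, norm_mul, mul_pow]
  unfold m12
  simp only [h1]
  rw [integral_const_mul]

/-- the support of the sixth power -/
def S6 (S : Finset (ℤ × ℤ)) : Finset (ℤ × ℤ) := (S3 S ×ˢ S3 S).image (fun k => k.1 + k.2)

open Classical in
/-- the Fourier coefficient of the sixth power -/
noncomputable def six (S : Finset (ℤ × ℤ)) (a : ℤ × ℤ → ℂ) (l : ℤ × ℤ) : ℂ :=
  ∑ k ∈ (S3 S ×ˢ S3 S).filter (fun k => k.1 + k.2 = l), cub S a k.1 * cub S a k.2

private theorem tp_cube92 (S : Finset (ℤ × ℤ)) (a : ℤ × ℤ → ℂ) (c : ℝ × ℝ) :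
    tp S a c ^ 3 = tp (S3 S) (cub S a) c := by
  classical
  have h1 : tp S a c ^ 3 = ∑ k ∈ S ×ˢ S ×ˢ S, a k.1 * a k.2.1 * a k.2.2 *
      ee (dt (k.1 + k.2.1 + k.2.2) c) := by
    rw [Finset.sum_product]
    simp only [Finset.sum_product]
    have h2 : tp S a c ^ 3 = tp S a c * (tp S a c * tp S a c) := by ring
    rw [h2]
    unfold tp
    rw [Finset.sum_mul_sum, Finset.sum_mul_sum]
    refine Finset.sum_congr rfl fun k _ => ?_
    refine Finset.sum_congr rfl fun l _ => ?_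
    rw [Finset.mul_sum]
    refine Finset.sum_congr rfl fun m _ => ?_
    rw [dt_add, dt_add, ee_add, ee_add]
    ring
  rw [h1, ← Finset.sum_fiberwise_of_maps_to (s := S ×ˢ S ×ˢ S) (t := S3 S)
    (g := fun k => k.1 + k.2.1 + k.2.2) (fun k hk => Finset.mem_image_of_mem _ hk)]
  unfold tp cub
  refine Finset.sum_congr rfl fun l _ => ?_
  rw [Finset.sum_mul]
  refine Finset.sum_congr ?_ fun k hk => ?_
  · congr
  · rw [(Finset.mem_filter.1 hk).2]

private theorem tp_six92 (S : Finset (ℤ × ℤ)) (a : ℤ × ℤ → ℂ) (c : ℝ × ℝ) :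
    tp S a c ^ 6 = tp (S6 S) (six S a) c := by
  classical
  have h0 : tp S a c ^ 6 = tp (S3 S) (cub S a) c * tp (S3 S) (cub S a) c := by
    rw [← tp_cube92]
    ring
  have h1 : tp S a c ^ 6 = ∑ k ∈ S3 S ×ˢ S3 S, cub S a k.1 * cub S a k.2 * ee (dt (k.1 + k.2) c) := by
    rw [h0, Finset.sum_product]
    unfold tp
    rw [Finset.sum_mul_sum]
    refine Finset.sum_congr rfl fun k _ => ?_
    refine Finset.sum_congr rfl fun l _ => ?_
    rw [dt_add, ee_add]
    ring
  rw [h1, ← Finset.sum_fiberwise_of_maps_to (s := S3 S ×ˢ S3 S) (t := S6 S)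
    (g := fun k => k.1 + k.2) (fun k hk => Finset.mem_image_of_mem _ hk)]
  unfold tp six
  refine Finset.sum_congr rfl fun l _ => ?_
  rw [Finset.sum_mul]
  refine Finset.sum_congr ?_ fun k hk => ?_
  · congr
  · rw [(Finset.mem_filter.1 hk).2]

private theorem fin92 : IsFiniteMeasure (volume.restrict Tq) := by
  have h1 : IsCompact Tq := isCompact_Icc.prod isCompact_Icc
  exact ⟨by rw [Measure.restrict_apply_univ]; exact h1.measure_lt_top⟩

private theorem intb92 {E : Type} [NormedAddCommGroup E] {f : ℝ × ℝ → E} (hf : Continuous f) :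
    Integrable f (volume.restrict Tq) := by
  have h1 : IsCompact Tq := isCompact_Icc.prod isCompact_Icc
  exact hf.continuousOn.integrableOn_compact h1

private theorem dt_cont92 (k : ℤ × ℤ) : Continuous (dt k) := by
  unfold dt
  fun_prop

private theorem parseval92 (T : Finset (ℤ × ℤ)) (b : ℤ × ℤ → ℂ) :
    ∫ c in Tq, ‖tp T b c‖ ^ 2 = ∑ l ∈ T, ‖b l‖ ^ 2 := by
  have h1 : ∀ c, ((‖tp T b c‖ ^ 2 : ℝ) : ℂ) = ∑ k ∈ T, ∑ l ∈ T, b k * (starRingEnd ℂ) (b l) *
      ee (dt (k - l) c) := by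
    intro c
    rw [← Complex.normSq_eq_norm_sq, ← Complex.mul_conj]
    unfold tp
    rw [map_sum, Finset.sum_mul_sum]
    refine Finset.sum_congr rfl fun k _ => Finset.sum_congr rfl fun l _ => ?_
    have h2 : ee (dt (k - l) c) = ee (dt k c) * (starRingEnd ℂ) (ee (dt l c)) := by
      rw [← ee_neg, ← ee_add]
      congr 1
      unfold dt
      rw [Prod.fst_sub, Prod.snd_sub]
      push_cast
      ring
    rw [h2, map_mul]
    ring
  have h2 : ((∫ c in Tq, ‖tp T b c‖ ^ 2 : ℝ) : ℂ) = ((∑ l ∈ T, ‖b l‖ ^ 2 : ℝ) : ℂ) := by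
    rw [← integral_complex_ofReal]
    simp only [h1]
    have hI : ∀ k l : ℤ × ℤ, Integrable (fun c : ℝ × ℝ => b k * (starRingEnd ℂ) (b l) *
        ee (dt (k - l) c)) (volume.restrict Tq) := fun k l =>
      intb92 (continuous_const.mul (ee_cont.comp (dt_cont92 _)))
    rw [integral_finsetSum _ fun k _ => integrable_finsetSum _ fun l _ => hI k l]
    push_cast
    refine Finset.sum_congr rfl fun k hk => ?_
    rw [integral_finsetSum _ fun l _ => hI k l]
    rw [Finset.sum_eq_single k]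
    · rw [integral_const_mul, ee_int, if_pos (sub_self k), mul_one, Complex.mul_conj,
        Complex.normSq_eq_norm_sq]
      push_cast
      rfl
    · intro l _ hl
      rw [integral_const_mul, ee_int, if_neg (fun h => hl (sub_eq_zero.1 h).symm), mul_zero]
    · intro h
      exact absurd hk h
  exact_mod_cast h2

theorem m12_eq (S : Finset (ℤ × ℤ)) (a : ℤ × ℤ → ℂ) : m12 S a = ∑ l ∈ S6 S, ‖six S a l‖ ^ 2 := by
  rw [← parseval92]
  unfold m12
  refine integral_congr_ae (Eventually.of_forall fun c => ?_)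
  simp only
  rw [← tp_six92, norm_pow]
  ring

theorem m12_shift (S : Finset (ℤ × ℤ)) (a : ℤ × ℤ → ℂ) (c₀ : ℝ × ℝ) : m12 S (fun k => ee (dt k c₀) * a k) = m12 S a := by
  rw [m12_eq, m12_eq]
  refine Finset.sum_congr rfl fun l _ => ?_
  have h0 : ∀ l, cub S (fun k => ee (dt k c₀) * a k) l = ee (dt l c₀) * cub S a l := by
    intro l
    unfold cub
    rw [Finset.mul_sum]
    refine Finset.sum_congr rfl fun k hk => ?_
    rw [← (Finset.mem_filter.1 hk).2, dt_add, dt_add, ee_add, ee_add]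
    ring
  have h1 : six S (fun k => ee (dt k c₀) * a k) l = ee (dt l c₀) * six S a l := by
    unfold six
    rw [Finset.mul_sum]
    refine Finset.sum_congr rfl fun k hk => ?_
    rw [h0, h0, ← (Finset.mem_filter.1 hk).2, dt_add, ee_add]
    ring
  rw [h1, norm_mul, ee_norm, one_mul]

theorem nik12 (S : Finset (ℤ × ℤ)) (a : ℤ × ℤ → ℂ) (c : ℝ × ℝ) : ‖tp S a c‖ ^ 12 ≤ ((S6 S).card : ℝ) * m12 S a := by
  have h1 : ‖tp S a c‖ ^ 12 = ‖tp (S6 S) (six S a) c‖ ^ 2 := by
    rw [← tp_six92, norm_pow]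
    ring
  rw [h1, m12_eq]
  calc ‖tp (S6 S) (six S a) c‖ ^ 2 ≤ (∑ l ∈ S6 S, ‖six S a l‖) ^ 2 :=
        pow_le_pow_left₀ (norm_nonneg _) (tp_norm_le _ _ _) 2
    _ ≤ ((S6 S).card : ℝ) * ∑ l ∈ S6 S, ‖six S a l‖ ^ 2 := sq_sum_le_card_mul_sum_sq

private theorem m12_pow92 (S : Finset (ℤ × ℤ)) (a : ℤ × ℤ → ℂ) :
    MemLp (tp S a) 12 (volume.restrict Tq) ∧
      m12 S a ^ (1 / 12 : ℝ) = (eLpNorm (tp S a) 12 (volume.restrict Tq)).toReal := by
  have := fin92
  have h1 : MemLp (tp S a) 12 (volume.restrict Tq) :=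
    MemLp.of_bound (tp_cont S a).aestronglyMeasurable (∑ k ∈ S, ‖a k‖)
      (Eventually.of_forall fun c => tp_norm_le S a c)
  refine ⟨h1, ?_⟩
  rw [h1.eLpNorm_eq_integral_rpow_norm (by norm_num) (by norm_num)]
  have h2 : (12 : ENNReal).toReal = 12 := by norm_num
  rw [h2, ENNReal.toReal_ofReal (by
    apply Real.rpow_nonneg
    exact integral_nonneg fun _ => by positivity)]
  unfold m12
  rw [one_div]
  congr 1
  refine integral_congr_ae (Eventually.of_forall fun c => ?_)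
  simp only
  rw [← Real.rpow_natCast]
  norm_num

theorem m12_add (S : Finset (ℤ × ℤ)) (a b : ℤ × ℤ → ℂ) :
    m12 S (fun k => a k + b k) ^ (1 / 12 : ℝ) ≤ m12 S a ^ (1 / 12 : ℝ) + m12 S b ^ (1 / 12 : ℝ) := by
  obtain ⟨ha, ea⟩ := m12_pow92 S a
  obtain ⟨hb, eb⟩ := m12_pow92 S b
  obtain ⟨-, eab⟩ := m12_pow92 S (fun k => a k + b k)
  rw [ea, eb, eab]
  have h1 : tp S (fun k => a k + b k) = tp S a + tp S b := by
    funext c
    rw [Pi.add_apply]
    unfold tp
    rw [← Finset.sum_add_distrib]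
    exact Finset.sum_congr rfl fun k _ => by ring
  rw [h1, ← ENNReal.toReal_add ha.eLpNorm_ne_top hb.eLpNorm_ne_top]
  exact ENNReal.toReal_mono (ENNReal.add_ne_top.2 ⟨ha.eLpNorm_ne_top, hb.eLpNorm_ne_top⟩)
    (eLpNorm_add_le ha.aestronglyMeasurable hb.aestronglyMeasurable (by norm_num))

end Pool.Agent.Helper92.DT
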