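import Pool.Agent.Helper92.GC.R0

/-!
# Project DT (MP_fb29e9_nt): the twelfth moment. Definitions

`tp`, `Tq`, `reg`, `ph`, `ee` from GC.Defs.
-/

open MeasureTheory Real Set Filter Topology

set_option autoImplicit false

namespace Pool.Agent.Helper92.DT

open Pool.Agent.Helper22.AE
open Pool.Agent.Helper92.GC

/-- the twelfth moment of a trigonometric polynomial -/
noncomputable def m12 (S : Finset (ℤ × ℤ)) (a : ℤ × ℤ → ℂ) : ℝ := ∫ c in Tq, ‖tp S a c‖ ^ 12

/-- `b` is a multiplier of norm at most `C` for the `L¹²` norm of polynomials with frequencies in `S` -/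
def IsMul12 (S : Finset (ℤ × ℤ)) (b : ℤ × ℤ → ℂ) (C : ℝ) : Prop :=
  0 ≤ C ∧ ∀ a : ℤ × ℤ → ℂ, m12 S (fun k => b k * a k) ≤ C ^ 12 * m12 S a

end Pool.Agent.Helper92.DT
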