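import Pool.Agent.Helper92.GC.G3
import Pool.Agent.Helper92.DT.G2

/-!
# DT-G3: the sum over a sector, exponent 12
-/

open MeasureTheory Real Set Filter Topology

set_option autoImplicit false

namespace Pool.Agent.Helper92.DT

open Pool.Agent.Helper22.AE
open Pool.Agent.Helper92.GC

private lemma bs_tp63 {n : ℤ × ℤ} (h : IsCoprime n.1 n.2) (W : Finset (ℤ × ℤ)) (K i : ℕ) (R : ℝ) (c : ℝ × ℝ) :
    bs W K i R c = tp (W.preimage (lc n) (lc_inj h).injOn)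
      (fun p => (((K : ℝ) / nk (lc n p) : ℝ) : ℂ) ^ i * ee (R * nk (lc n p))) (dt n c, dt (GC.cmp n) c) := by
  have hb : Set.BijOn (lc n) (lc n ⁻¹' ↑W) ↑W := by
    refine ⟨fun x hx => hx, (lc_inj h).injOn, ?_⟩
    intro y hy
    obtain ⟨x, hx⟩ := lc_surj h y
    refine ⟨x, ?_, hx⟩
    simp only [Set.mem_preimage, hx]
    exact hy
  unfold bs tp
  rw [← Finset.sum_preimage_of_bij (lc n) W hb]
  refine Finset.sum_congr rfl ?_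
  intro p _
  rw [ee_add, ← mul_assoc]
  congr 2
  simp only [dt, lc]
  push_cast
  ring

private lemma s6_card63 {S : Finset (ℤ × ℤ)} {X Y : ℝ} (hX : 1 ≤ X) (hY : 1 ≤ Y)
    (h : ∀ p ∈ S, |(p.1 : ℝ)| ≤ X ∧ |(p.2 : ℝ)| ≤ Y) : ((S6 S).card : ℝ) ≤ 169 * (X * Y) := by
  have h3 : ∀ l ∈ S3 S, |(l.1 : ℝ)| ≤ 3 * X ∧ |(l.2 : ℝ)| ≤ 3 * Y := by
    intro l hl
    unfold S3 at hl
    rw [Finset.mem_image] at hl
    obtain ⟨k, hk, rfl⟩ := hl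
    rw [Finset.mem_product, Finset.mem_product] at hk
    obtain ⟨hk1, hk2, hk3⟩ := hk
    have a1 := h _ hk1
    have a2 := h _ hk2
    have a3 := h _ hk3
    simp only [abs_le] at a1 a2 a3 ⊢
    simp only [Prod.fst_add, Prod.snd_add]
    push_cast
    refine ⟨⟨?_, ?_⟩, ?_, ?_⟩ <;> linarith [a1.1.1, a1.1.2, a1.2.1, a1.2.2, a2.1.1, a2.1.2, a2.2.1, a2.2.2,
      a3.1.1, a3.1.2, a3.2.1, a3.2.2]
  have key : ∀ (Z : ℝ) (a b : ℤ), |(a : ℝ)| ≤ 3 * Z → |(b : ℝ)| ≤ 3 * Z →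
      a + b ∈ Finset.Icc (-⌊6 * Z⌋) ⌊6 * Z⌋ := by
    intro Z a b ha hb
    rw [abs_le] at ha hb
    rw [Finset.mem_Icc]
    constructor
    · rw [neg_le, Int.le_floor]
      push_cast
      linarith [ha.1, hb.1]
    · rw [Int.le_floor]
      push_cast
      linarith [ha.2, hb.2]
  have hsub : S6 S ⊆ Finset.Icc (-⌊6 * X⌋) ⌊6 * X⌋ ×ˢ Finset.Icc (-⌊6 * Y⌋) ⌊6 * Y⌋ := by
    intro l hl
    unfold S6 at hl
    rw [Finset.mem_image] at hl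
    obtain ⟨k, hk, rfl⟩ := hl
    rw [Finset.mem_product] at hk
    obtain ⟨hk1, hk2⟩ := hk
    rw [Finset.mem_product]
    exact ⟨key X _ _ (h3 _ hk1).1 (h3 _ hk2).1, key Y _ _ (h3 _ hk1).2 (h3 _ hk2).2⟩
  have hcard : ∀ Z : ℝ, 1 ≤ Z → ((Finset.Icc (-⌊6 * Z⌋) ⌊6 * Z⌋).card : ℝ) ≤ 13 * Z := by
    intro Z hZ
    rw [Int.card_Icc]
    have h0 : 0 ≤ ⌊6 * Z⌋ := Int.floor_nonneg.mpr (by linarith)
    have h1 : ((⌊6 * Z⌋ + 1 - -⌊6 * Z⌋).toNat : ℤ) = ⌊6 * Z⌋ + 1 - -⌊6 * Z⌋ := Int.toNat_of_nonneg (by linarith)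
    have h3 := Int.floor_le (6 * Z)
    have h4 : (((⌊6 * Z⌋ + 1 - -⌊6 * Z⌋).toNat : ℕ) : ℝ) = 2 * (⌊6 * Z⌋ : ℝ) + 1 := by
      have h5 : (((⌊6 * Z⌋ + 1 - -⌊6 * Z⌋).toNat : ℕ) : ℝ) = (((⌊6 * Z⌋ + 1 - -⌊6 * Z⌋).toNat : ℤ) : ℝ) := by
        push_cast
        rfl
      rw [h5, h1]
      push_cast
      ring
    rw [h4]
    linarith
  have h1 := Finset.card_le_card hsub
  rw [Finset.card_product] at h1
  have h2 : ((S6 S).card : ℝ) ≤ ((Finset.Icc (-⌊6 * X⌋) ⌊6 * X⌋).card : ℝ) * ((Finset.Icc (-⌊6 * Y⌋) ⌊6 * Y⌋).card : ℝ) := by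
    exact_mod_cast h1
  have h3 := mul_le_mul (hcard X hX) (hcard Y hY) (Nat.cast_nonneg _) (by linarith)
  linarith

private lemma half4_63 {S S' : Finset (ℤ × ℤ)} {x₁ y₁ z₁ x₂ y₂ z₂ x₃ y₃ z₃ x₄ y₄ z₄ : ℝ}
    (h : ∀ p : ℤ × ℤ, p ∈ S' ↔ p ∈ S ∧ z₁ ≤ x₁ * (p.1 : ℝ) + y₁ * (p.2 : ℝ) ∧ z₂ ≤ x₂ * (p.1 : ℝ) + y₂ * (p.2 : ℝ) ∧
      z₃ ≤ x₃ * (p.1 : ℝ) + y₃ * (p.2 : ℝ) ∧ z₄ ≤ x₄ * (p.1 : ℝ) + y₄ * (p.2 : ℝ)) (a : ℤ × ℤ → ℂ) :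
    m12 S' a ≤ (24 ^ 12) ^ 4 * m12 S a := by
  classical
  have h1 := riesz12_half S a x₁ y₁ z₁
  set S1 := S.filter (fun k => z₁ ≤ x₁ * (k.1 : ℝ) + y₁ * (k.2 : ℝ)) with hS1
  have h2 := riesz12_half S1 a x₂ y₂ z₂
  set S2 := S1.filter (fun k => z₂ ≤ x₂ * (k.1 : ℝ) + y₂ * (k.2 : ℝ)) with hS2
  have h3 := riesz12_half S2 a x₃ y₃ z₃
  set S3' := S2.filter (fun k => z₃ ≤ x₃ * (k.1 : ℝ) + y₃ * (k.2 : ℝ)) with hS3
  have h4 := riesz12_half S3' a x₄ y₄ z₄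
  set S4 := S3'.filter (fun k => z₄ ≤ x₄ * (k.1 : ℝ) + y₄ * (k.2 : ℝ)) with hS4
  have he : S' = S4 := by
    ext p
    rw [h p, hS4, hS3, hS2, hS1]
    simp only [Finset.mem_filter]
    tauto
  rw [he]
  have h0 : (0 : ℝ) ≤ 24 ^ 12 := by positivity
  calc m12 S4 a ≤ 24 ^ 12 * m12 S3' a := h4
    _ ≤ 24 ^ 12 * (24 ^ 12 * m12 S2 a) := mul_le_mul_of_nonneg_left h3 h0
    _ ≤ 24 ^ 12 * (24 ^ 12 * (24 ^ 12 * m12 S1 a)) := by gcongr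
    _ ≤ 24 ^ 12 * (24 ^ 12 * (24 ^ 12 * (24 ^ 12 * m12 S a))) := by gcongr
    _ = (24 ^ 12) ^ 4 * m12 S a := by ring

private lemma mem_sec63 {K Q : ℕ} {n k : ℤ × ℤ} (h : k ∈ sec K Q n) :
    (K : ℤ) ≤ k.1 ∧ k.1 < 2 * K ∧ 0 ≤ k.2 ∧ k.2 ≤ k.1 ∧ IsNd Q k n := by
  classical
  unfold sec oct at h
  simp only [Finset.mem_filter] at h
  exact ⟨h.1.2.1, h.1.2.2.1, h.1.2.2.2.1, h.1.2.2.2.2, h.2⟩

private lemma sec_mem63 {K Q : ℕ} {n k : ℤ × ℤ} (h1 : (K : ℤ) ≤ k.1) (h2 : k.1 < 2 * K) (h3 : 0 ≤ k.2) (h4 : k.2 ≤ k.1)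
    (h5 : IsNd Q k n) : k ∈ sec K Q n := by
  classical
  unfold sec oct
  simp only [Finset.mem_filter]
  refine ⟨⟨?_, h1, h2, h3, h4⟩, h5⟩
  unfold box
  rw [Finset.mem_product, Finset.mem_Icc, Finset.mem_Icc]
  push_cast
  refine ⟨⟨?_, ?_⟩, ?_, ?_⟩ <;> omega

/-- the sector is given by four linear inequalities -/
private lemma sec_iff63 {K Q : ℕ} {n : ℤ × ℤ} (hK : 1 ≤ K) (hQ : 3 ≤ Q) (hne : (sec K Q n).Nonempty) :
    ∃ k₁ ∈ sec K Q n, ∃ k₂ ∈ sec K Q n, ∀ k : ℤ × ℤ, k ∈ sec K Q n ↔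
      (K : ℤ) ≤ k.1 ∧ k.1 < 2 * K ∧ k₁.2 * k.1 ≤ k.2 * k₁.1 ∧ k.2 * k₂.1 ≤ k₂.2 * k.1 := by
  obtain ⟨k₁, hk₁, h1⟩ := Finset.exists_min_image (sec K Q n) (fun k => ((k.2 : ℝ) / (k.1 : ℝ))) hne
  obtain ⟨k₂, hk₂, h2⟩ := Finset.exists_max_image (sec K Q n) (fun k => ((k.2 : ℝ) / (k.1 : ℝ))) hne
  have hpos : ∀ k ∈ sec K Q n, (1 : ℤ) ≤ k.1 := by
    intro k hk
    have := (mem_sec63 hk).1
    omega
  have hcr : ∀ k ∈ sec K Q n, ∀ l ∈ sec K Q n, (k.2 : ℝ) / (k.1 : ℝ) ≤ (l.2 : ℝ) / (l.1 : ℝ) → k.2 * l.1 ≤ l.2 * k.1 := by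
    intro k hk l hl hkl
    have h3 : (0 : ℝ) < (k.1 : ℝ) := by exact_mod_cast (hpos k hk)
    have h4 : (0 : ℝ) < (l.1 : ℝ) := by exact_mod_cast (hpos l hl)
    rw [div_le_div_iff₀ h3 h4] at hkl
    exact_mod_cast hkl
  refine ⟨k₁, hk₁, k₂, hk₂, ?_⟩
  intro k
  constructor
  · intro hk
    obtain ⟨h3, h4, h5, h6, h7⟩ := mem_sec63 hk
    exact ⟨h3, h4, hcr k₁ hk₁ k hk (h1 k hk), hcr k hk k₂ hk₂ (h2 k hk)⟩
  · rintro ⟨h3, h4, h5, h6⟩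
    have hk1 : (1 : ℤ) ≤ k.1 := by omega
    have ha := hpos k₁ hk₁
    have hb := hpos k₂ hk₂
    obtain ⟨a1, a2, a3, a4, a5⟩ := mem_sec63 hk₁
    obtain ⟨b1, b2, b3, b4, b5⟩ := mem_sec63 hk₂
    refine sec_mem63 h3 h4 ?_ ?_ ?_
    · by_contra hc
      push Not at hc
      nlinarith
    · by_contra hc
      push Not at hc
      nlinarith
    · exact nd_convex hQ (k₁ := k₁) (k₂ := k) (k₃ := k₂) ha hk1 hb a5 b5 h5 h6

theorem sector_bound12 (C₀ : ℝ) : ∃ C : ℝ, 0 < C ∧ ∀ (K Q : ℕ) (A R R' b b₀ : ℝ) (n : ℤ × ℤ), 8 ≤ Q → Q ≤ K → 1 ≤ A →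
    A ^ 4 ≤ (Q : ℝ) ^ 3 → 0 < R → R * K ≤ C₀ * (Q : ℝ) ^ 5 → (Q : ℝ) ^ 5 ≤ C₀ * (R * K) → Good (Q / A) n →
    |Rn R n - R'| ≤ A * Q / K → |bt n - b| ≤ 1 / (Q * A) → |bt n - b₀| ≤ 1 / 16 →
      ∀ i : ℕ, (i = 1 ∨ i = 2) → ∀ c : ℝ × ℝ,
      ‖bs (sec K Q n) K i R c‖ ^ 12 ≤ C * ((K : ℝ) ^ 2 * A / (Q : ℝ) ^ 2) *
        m12 (reg b₀ (K * A / Q)) (fun p => ee (R' * ph b p)) := by
  classical
  obtain ⟨C₁, hC₁, hloc⟩ := local_const12 C₀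
  obtain ⟨C₂, hC₂, hwt⟩ := weight_mul12
  refine ⟨2366 * ((C₂ * C₁) ^ 12 * (24 ^ 12) ^ 4), by positivity, ?_⟩
  intro K Q A R R' b b₀ n hQ hQK hA hA4 hR hRK hQ5 hn hRn hbt hb₀ i hi c
  have hK : 1 ≤ K := by omega
  have hKr : (1 : ℝ) ≤ K := by exact_mod_cast hK
  have hQr : (8 : ℝ) ≤ Q := by exact_mod_cast hQ
  have hQKr : (Q : ℝ) ≤ K := by exact_mod_cast hQK
  have hQ0 : (0 : ℝ) < Q := by linarith
  have hA0 : 0 < A := by linarith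
  have hK0 : (0 : ℝ) < K := by linarith
  set H : ℝ := K * A / Q with hH
  have hT : 1 ≤ (K : ℝ) / Q := by rw [le_div_iff₀ hQ0]; linarith
  have hTH : (K : ℝ) / Q ≤ H := by
    rw [hH, div_le_div_iff_of_pos_right hQ0]
    nlinarith
  have hH1 : 1 ≤ H := hT.trans hTH
  have hmn : 0 ≤ m12 (reg b₀ H) (fun p => ee (R' * ph b p)) := m12_nonneg _ _
  rcases (sec K Q n).eq_empty_or_nonempty with he | hne
  · rw [he]
    unfold bs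
    rw [Finset.sum_empty, norm_zero]
    have : (0 : ℝ) ≤ 2366 * ((C₂ * C₁) ^ 12 * (24 ^ 12) ^ 4) * ((K : ℝ) ^ 2 * A / (Q : ℝ) ^ 2) *
        m12 (reg b₀ H) (fun p => ee (R' * ph b p)) := by positivity
    simpa using this
  rw [bs_tp63 hn.cop]
  set S := (sec K Q n).preimage (lc n) (lc_inj hn.cop).injOn with hS
  have hmem : ∀ p, p ∈ S ↔ lc n p ∈ sec K Q n := by
    intro p
    rw [hS, Finset.mem_preimage]
  -- coordinates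
  have hco : ∀ p ∈ S, K * A / (2 * Q) ≤ uu (bt n) p ∧ uu (bt n) p ≤ 6 * (K * A / Q) ∧ |tt (bt n) p| ≤ 2 / A ∧
      |(p.2 : ℝ)| ≤ 2 * K / Q := by
    intro p hp
    obtain ⟨h1, h2, h3, h4, h5⟩ := mem_sec63 ((hmem p).1 hp)
    exact sec_coord hA (by omega) hn h1 h2 h3 h4 hK h5
  have hHh : K * A / (2 * Q) = H / 2 := by
    rw [hH]
    field_simp
  have hup : ∀ p ∈ S, 0 < uu (bt n) p := by
    intro p hp
    have := (hco p hp).1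
    rw [hHh] at this
    linarith
  have hbl := bt_le hn.cop
  have hp2 : ∀ p ∈ S, |(p.2 : ℝ)| ≤ 2 * ((K : ℝ) / Q) := by
    intro p hp
    have := (hco p hp).2.2.2
    rwa [mul_div_assoc] at this
  have hp1 : ∀ p ∈ S, |(p.1 : ℝ)| ≤ 7 * H := by
    intro p hp
    have h1 : (p.1 : ℝ) = uu (bt n) p - bt n * (p.2 : ℝ) := by
      unfold uu
      ring
    have h2 : |bt n * (p.2 : ℝ)| ≤ 1 / 2 * (2 * ((K : ℝ) / Q)) := by
      rw [abs_mul]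
      exact mul_le_mul hbl (hp2 p hp) (abs_nonneg _) (by norm_num)
    have h3 := (hco p hp).2.1
    have h4 : |uu (bt n) p| ≤ 6 * H := by
      rw [abs_of_pos (hup p hp)]
      exact h3
    rw [h1]
    have h5 := abs_sub (uu (bt n) p) (bt n * (p.2 : ℝ))
    linarith
  -- Nikolskii
  have hcard : ((S6 S).card : ℝ) ≤ 2366 * ((K : ℝ) ^ 2 * A / (Q : ℝ) ^ 2) := by
    have h1 := s6_card63 (S := S) (X := 7 * H) (Y := 2 * ((K : ℝ) / Q)) (by linarith) (by linarith)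
      (fun p hp => ⟨hp1 p hp, hp2 p hp⟩)
    refine h1.trans (le_of_eq ?_)
    rw [hH]
    field_simp
    ring
  have hnik := nik12 S (fun p => (((K : ℝ) / nk (lc n p) : ℝ) : ℂ) ^ i * ee (R * nk (lc n p))) (dt n c, dt (GC.cmp n) c)
  -- local constancy
  obtain ⟨c₀, b', hb', hee⟩ := hloc K Q A R R' b n hK hQ hA hA4 hR hRK hQ5 hn hRn hbt S
    (fun p hp => ⟨hup p hp, (hco p hp).2.1, (hco p hp).2.2.1⟩)
  have hw := hwt K Q A n hK hQ hA hn S (fun p hp => ⟨(hco p hp).1, (hco p hp).2.1, (hco p hp).2.2.1⟩) i hi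
  have hm1 : m12 S (fun p => (((K : ℝ) / nk (lc n p) : ℝ) : ℂ) ^ i * ee (R * nk (lc n p))) ≤
      (C₂ * C₁) ^ 12 * m12 S (fun p => ee (R' * ph b p)) := by
    have h1 := (mul12_comp hw hb').2 (fun p => ee (dt p c₀) * ee (R' * ph b p))
    rw [m12_shift] at h1
    refine le_trans (le_of_eq ?_) h1
    refine m12_congr ?_
    intro p hp
    dsimp only
    rw [hee p hp]
    ring
  -- the region
  have hreg : ∀ p ∈ S, p ∈ reg b₀ H := by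
    intro p hp
    have e1 := (hco p hp).1
    have e2 := (hco p hp).2.1
    have e3 := (hco p hp).2.2.1
    rw [hHh] at e1
    have hu := hup p hp
    have e4 : uu b₀ p - uu (bt n) p = (b₀ - bt n) * (p.2 : ℝ) := by
      unfold uu
      ring
    have e6 : |(p.2 : ℝ)| ≤ 2 * uu (bt n) p := by
      have h1 : (p.2 : ℝ) = tt (bt n) p * uu (bt n) p := by
        unfold tt
        rw [div_mul_cancel₀ _ hu.ne']
      rw [h1, abs_mul, abs_of_pos hu]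
      have h2 : 2 / A ≤ 2 := by
        rw [div_le_iff₀ hA0]
        linarith
      exact mul_le_mul_of_nonneg_right (e3.trans h2) hu.le
    have e5 : |uu b₀ p - uu (bt n) p| ≤ uu (bt n) p / 8 := by
      rw [e4, abs_mul, abs_sub_comm]
      have h1 : |bt n - b₀| * |(p.2 : ℝ)| ≤ 1 / 16 * (2 * uu (bt n) p) :=
        mul_le_mul hb₀ e6 (abs_nonneg _) (by norm_num)
      linarith
    rw [abs_le] at e5
    have e7 := hp1 p hp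
    have e8 := hp2 p hp
    have hceil := Nat.le_ceil (40 * H)
    have hbox : p ∈ box ⌈40 * H⌉₊ := by
      have f1 : |(p.1 : ℝ)| ≤ (⌈40 * H⌉₊ : ℝ) := by linarith
      have f2 : |(p.2 : ℝ)| ≤ (⌈40 * H⌉₊ : ℝ) := by linarith
      rw [abs_le] at f1 f2
      unfold box
      rw [Finset.mem_product, Finset.mem_Icc, Finset.mem_Icc]
      refine ⟨⟨?_, ?_⟩, ?_, ?_⟩
      · exact_mod_cast f1.1
      · exact_mod_cast f1.2
      · exact_mod_cast f2.1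
      · exact_mod_cast f2.2
    unfold reg
    rw [Finset.mem_filter]
    refine ⟨hbox, ?_, ?_, ?_⟩
    · linarith
    · linarith
    · linarith
  -- the half planes
  have hm2 : m12 S (fun p => ee (R' * ph b p)) ≤ (24 ^ 12) ^ 4 * m12 (reg b₀ H) (fun p => ee (R' * ph b p)) := by
    obtain ⟨k₁, hk₁, k₂, hk₂, hiff⟩ := sec_iff63 (n := n) hK (show 3 ≤ Q by omega) hne
    refine half4_63 (S := reg b₀ H) (S' := S) (x₁ := n.1) (y₁ := (GC.cmp n).1) (z₁ := K)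
      (x₂ := -n.1) (y₂ := -(GC.cmp n).1) (z₂ := -(2 * K - 1))
      (x₃ := k₁.1 * n.2 - k₁.2 * n.1) (y₃ := k₁.1 * (GC.cmp n).2 - k₁.2 * (GC.cmp n).1) (z₃ := 0)
      (x₄ := k₂.2 * n.1 - k₂.1 * n.2) (y₄ := k₂.2 * (GC.cmp n).1 - k₂.1 * (GC.cmp n).2) (z₄ := 0) ?_ _
    intro p
    have g1 : ((K : ℝ) ≤ n.1 * (p.1 : ℝ) + (GC.cmp n).1 * (p.2 : ℝ)) ↔ (K : ℤ) ≤ (lc n p).1 := by
      have : ((lc n p).1 : ℝ) = n.1 * (p.1 : ℝ) + (GC.cmp n).1 * (p.2 : ℝ) := by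
        simp only [lc]
        push_cast
        ring
      rw [← this]
      exact_mod_cast Iff.rfl
    have g2 : (-(2 * (K : ℝ) - 1) ≤ -n.1 * (p.1 : ℝ) + -(GC.cmp n).1 * (p.2 : ℝ)) ↔ (lc n p).1 < 2 * K := by
      have : -n.1 * (p.1 : ℝ) + -(GC.cmp n).1 * (p.2 : ℝ) = -((lc n p).1 : ℝ) := by
        simp only [lc]
        push_cast
        ring
      rw [this, neg_le_neg_iff]
      constructor
      · intro h
        have h' : (lc n p).1 ≤ 2 * K - 1 := by exact_mod_cast h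
        omega
      · intro h
        have h' : (lc n p).1 ≤ 2 * K - 1 := by omega
        exact_mod_cast h'
    have g3 : ((0 : ℝ) ≤ (k₁.1 * n.2 - k₁.2 * n.1) * (p.1 : ℝ) + (k₁.1 * (GC.cmp n).2 - k₁.2 * (GC.cmp n).1) * (p.2 : ℝ)) ↔
        k₁.2 * (lc n p).1 ≤ (lc n p).2 * k₁.1 := by
      have : ((k₁.1 : ℝ) * n.2 - k₁.2 * n.1) * (p.1 : ℝ) + (k₁.1 * (GC.cmp n).2 - k₁.2 * (GC.cmp n).1) * (p.2 : ℝ) =
          (((lc n p).2 * k₁.1 - k₁.2 * (lc n p).1 : ℤ) : ℝ) := by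
        simp only [lc]
        push_cast
        ring
      rw [this]
      constructor
      · intro h
        have h' : 0 ≤ (lc n p).2 * k₁.1 - k₁.2 * (lc n p).1 := by exact_mod_cast h
        linarith
      · intro h
        have h' : 0 ≤ (lc n p).2 * k₁.1 - k₁.2 * (lc n p).1 := by linarith
        exact_mod_cast h'
    have g4 : ((0 : ℝ) ≤ (k₂.2 * n.1 - k₂.1 * n.2) * (p.1 : ℝ) + (k₂.2 * (GC.cmp n).1 - k₂.1 * (GC.cmp n).2) * (p.2 : ℝ)) ↔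
        (lc n p).2 * k₂.1 ≤ k₂.2 * (lc n p).1 := by
      have : ((k₂.2 : ℝ) * n.1 - k₂.1 * n.2) * (p.1 : ℝ) + (k₂.2 * (GC.cmp n).1 - k₂.1 * (GC.cmp n).2) * (p.2 : ℝ) =
          ((k₂.2 * (lc n p).1 - (lc n p).2 * k₂.1 : ℤ) : ℝ) := by
        simp only [lc]
        push_cast
        ring
      rw [this]
      constructor
      · intro h
        have h' : 0 ≤ k₂.2 * (lc n p).1 - (lc n p).2 * k₂.1 := by exact_mod_cast h
        linarith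
      · intro h
        have h' : 0 ≤ k₂.2 * (lc n p).1 - (lc n p).2 * k₂.1 := by linarith
        exact_mod_cast h'
    rw [g1, g2, g3, g4]
    constructor
    · intro hp
      exact ⟨hreg p hp, (hiff _).1 ((hmem p).1 hp)⟩
    · rintro ⟨-, h⟩
      exact (hmem p).2 ((hiff _).2 h)
  have hm3 := hm1.trans (mul_le_mul_of_nonneg_left hm2 (by positivity))
  refine hnik.trans ?_
  calc ((S6 S).card : ℝ) * m12 S (fun p => (((K : ℝ) / nk (lc n p) : ℝ) : ℂ) ^ i * ee (R * nk (lc n p)))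
      ≤ (2366 * ((K : ℝ) ^ 2 * A / (Q : ℝ) ^ 2)) *
        ((C₂ * C₁) ^ 12 * ((24 ^ 12) ^ 4 * m12 (reg b₀ H) (fun p => ee (R' * ph b p)))) :=
        mul_le_mul hcard hm3 (m12_nonneg _ _) (by positivity)
    _ = 2366 * ((C₂ * C₁) ^ 12 * (24 ^ 12) ^ 4) * ((K : ℝ) ^ 2 * A / (Q : ℝ) ^ 2) *
        m12 (reg b₀ H) (fun p => ee (R' * ph b p)) := by ring

end Pool.Agent.Helper92.DT
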