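import Pool.Agent.Helper92.DT.R0

/-!
# DT-R1: the theorem of M. Riesz for the exponent 12

As GC.R1, with the pointwise inequality `|z|^12 ≤ 8 Re z^12 + 6·10^12 (Re z)^12`.
-/

open MeasureTheory Real Set Filter Topology

set_option autoImplicit false

namespace Pool.Agent.Helper92.DT

open Pool.Agent.Helper22.AE
open Pool.Agent.Helper92.GC

private lemma Tq_compact40 : IsCompact Tq := isCompact_Icc.prod isCompact_Icc

private lemma intC40 {f : ℝ × ℝ → ℂ} (hf : Continuous f) : Integrable f (volume.restrict Tq) :=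
  hf.continuousOn.integrableOn_compact Tq_compact40

private lemma intR40 {f : ℝ × ℝ → ℝ} (hf : Continuous f) : Integrable f (volume.restrict Tq) :=
  hf.continuousOn.integrableOn_compact Tq_compact40

private lemma mono40 {f g : ℝ × ℝ → ℝ} (hf : Continuous f) (hg : Continuous g) (h : ∀ c, f c ≤ g c) :
    ∫ c in Tq, f c ≤ ∫ c in Tq, g c := integral_mono (intR40 hf) (intR40 hg) h

private lemma add40 (f g : ℝ × ℝ → ℝ) (hf : Continuous f) (hg : Continuous g) :
    ∫ c in Tq, (f c + g c) = (∫ c in Tq, f c) + ∫ c in Tq, g c :=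
  integral_add (intR40 hf) (intR40 hg)

private lemma sum40 {ι : Type*} (s : Finset ι) (f : ι → ℝ × ℝ → ℂ) (hf : ∀ i, Continuous (f i)) :
    ∫ c in Tq, ∑ i ∈ s, f i c = ∑ i ∈ s, ∫ c in Tq, f i c :=
  integral_finsetSum _ (fun i _ => intC40 (hf i))

private lemma re40 (f : ℝ × ℝ → ℂ) (hf : Continuous f) :
    ∫ c in Tq, (f c).re = (∫ c in Tq, f c).re := integral_re (intC40 hf)

private lemma one40 : ∫ _c in Tq, (1 : ℝ) = 1 := by
  have h1 := ee_int 0
  rw [if_pos rfl] at h1
  have h2 : ∀ c : ℝ × ℝ, ee (dt 0 c) = 1 := by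
    intro c
    have h3 : dt 0 c = 0 := by simp [dt]
    rw [h3, ee_zero]
  simp only [h2] at h1
  have h3 := re40 (fun _ => 1) continuous_const
  rw [h1] at h3
  exact h3

private lemma const40 (r : ℝ) : ∫ _c in Tq, r = r := by
  have h : ∀ _c : ℝ × ℝ, r = r * 1 := fun _ => (mul_one r).symm
  calc ∫ _c in Tq, r = ∫ _c in Tq, r * 1 := by simp only [mul_one]
    _ = r * ∫ _c in Tq, (1 : ℝ) := integral_const_mul _ _
    _ = r := by rw [one40, mul_one]

private lemma ee_cont40 (k : ℤ × ℤ) : Continuous fun c : ℝ × ℝ => ee (dt k c) := by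
  refine ee_cont.comp ?_
  unfold dt
  fun_prop

/-- the product of two polynomials with positive frequencies -/
private lemma mul_tp92 {P : ℤ × ℤ → Prop} (hP : IsPos P) (U T : Finset (ℤ × ℤ)) (hU : ∀ k ∈ U, P k) (hT : ∀ k ∈ T, P k)
    (b b' : ℤ × ℤ → ℂ) : ∃ (V : Finset (ℤ × ℤ)) (d : ℤ × ℤ → ℂ), (∀ k ∈ V, P k) ∧
      ∀ c, tp U b c * tp T b' c = tp V d c := by
  classical
  refine ⟨(U ×ˢ T).image (fun k => k.1 + k.2),
    fun l => ∑ k ∈ (U ×ˢ T).filter (fun k => k.1 + k.2 = l), b k.1 * b' k.2, ?_, ?_⟩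
  · intro l hl
    obtain ⟨k, hk, rfl⟩ := Finset.mem_image.1 hl
    rw [Finset.mem_product] at hk
    exact hP.add _ _ (hU _ hk.1) (hT _ hk.2)
  · intro c
    have h1 : tp U b c * tp T b' c = ∑ k ∈ U ×ˢ T, b k.1 * b' k.2 * ee (dt (k.1 + k.2) c) := by
      rw [Finset.sum_product]
      unfold tp
      rw [Finset.sum_mul_sum]
      refine Finset.sum_congr rfl fun k _ => ?_
      refine Finset.sum_congr rfl fun l _ => ?_
      rw [dt_add, ee_add]
      ring
    rw [h1, ← Finset.sum_fiberwise_of_maps_to (s := U ×ˢ T) (t := (U ×ˢ T).image (fun k => k.1 + k.2))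
      (g := fun k => k.1 + k.2) (fun k hk => Finset.mem_image_of_mem _ hk)]
    unfold tp
    refine Finset.sum_congr rfl fun l _ => ?_
    rw [Finset.sum_mul]
    refine Finset.sum_congr rfl fun k hk => ?_
    rw [(Finset.mem_filter.1 hk).2]

private lemma pow_tp92 {P : ℤ × ℤ → Prop} (hP : IsPos P) (T : Finset (ℤ × ℤ)) (hT : ∀ k ∈ T, P k)
    (b : ℤ × ℤ → ℂ) (n : ℕ) : ∃ (V : Finset (ℤ × ℤ)) (d : ℤ × ℤ → ℂ), (∀ k ∈ V, P k) ∧
      ∀ c, tp T b c ^ (n + 1) = tp V d c := by
  induction n with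
  | zero => exact ⟨T, b, hT, fun c => by rw [zero_add, pow_one]⟩
  | succ n ih =>
    obtain ⟨U, d, hU, h1⟩ := ih
    obtain ⟨V, e, hV, h2⟩ := mul_tp92 hP U T hU hT d b
    exact ⟨V, e, hV, fun c => by rw [pow_succ, h1, h2]⟩

private lemma pow_int40 {P : ℤ × ℤ → Prop} (hP : IsPos P) (T : Finset (ℤ × ℤ)) (hT : ∀ k ∈ T, P k)
    (b : ℤ × ℤ → ℂ) : ∫ c in Tq, (tp T b c) ^ 12 = 0 := by
  obtain ⟨V, d, hV, h1⟩ := pow_tp92 hP T hT b 11
  have h2 : ∀ c, (tp T b c) ^ 12 = ∑ k ∈ V, d k * ee (dt k c) := fun c => h1 c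
  simp only [h2]
  rw [sum40 V (fun k c => d k * ee (dt k c)) (fun k => continuous_const.mul (ee_cont40 k))]
  refine Finset.sum_eq_zero fun k hk => ?_
  rw [integral_const_mul, ee_int, if_neg, mul_zero]
  intro h0
  exact hP.zero (h0 ▸ hV k hk)

private lemma poly92 {s t : ℝ} (hs : 0 ≤ s) (ht : 0 ≤ t) :
    (s + t) ^ 6 + -8 * (t ^ 6 - 66 * (s * t ^ 5) + 495 * (s ^ 2 * t ^ 4) - 924 * (s ^ 3 * t ^ 3) +
      495 * (s ^ 4 * t ^ 2) - 66 * (s ^ 5 * t) + s ^ 6) ≤ 6000000000000 * s ^ 6 := by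
  have e : (s + t) ^ 6 = t ^ 6 + 6 * (s * t ^ 5) + 15 * (s ^ 2 * t ^ 4) + 20 * (s ^ 3 * t ^ 3) +
      15 * (s ^ 4 * t ^ 2) + 6 * (s ^ 5 * t) + s ^ 6 := by ring
  rw [e]
  have p2 : 0 ≤ s ^ 2 * t ^ 4 := by positivity
  have p4 : 0 ≤ s ^ 4 * t ^ 2 := by positivity
  have p6 : 0 ≤ s ^ 6 := by positivity
  have q6 : 0 ≤ t ^ 6 := by positivity
  rcases le_or_gt (100 * s) t with h | h
  · have h1 : 100 * (s * t ^ 5) ≤ t ^ 6 := by
      have := mul_le_mul_of_nonneg_right h (show 0 ≤ t ^ 5 by positivity)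
      nlinarith
    have h3 : 1000000 * (s ^ 3 * t ^ 3) ≤ t ^ 6 := by
      have a := pow_le_pow_left₀ (by positivity) h 3
      have := mul_le_mul_of_nonneg_right a (show 0 ≤ t ^ 3 by positivity)
      nlinarith
    have h5 : 10000000000 * (s ^ 5 * t) ≤ t ^ 6 := by
      have a := pow_le_pow_left₀ (by positivity) h 5
      have := mul_le_mul_of_nonneg_right a ht
      nlinarith
    linarith
  · have h1 : s * t ^ 5 ≤ 10000000000 * s ^ 6 := by
      have a := pow_le_pow_left₀ ht h.le 5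
      have := mul_le_mul_of_nonneg_left a hs
      nlinarith
    have h3 : s ^ 3 * t ^ 3 ≤ 1000000 * s ^ 6 := by
      have a := pow_le_pow_left₀ ht h.le 3
      have := mul_le_mul_of_nonneg_left a (show 0 ≤ s ^ 3 by positivity)
      nlinarith
    have h5 : s ^ 5 * t ≤ 100 * s ^ 6 := by
      have := mul_le_mul_of_nonneg_left h.le (show 0 ≤ s ^ 5 by positivity)
      nlinarith
    linarith

private lemma pt40 (z : ℂ) : ‖z‖ ^ 12 + -8 * (z ^ 12).re ≤ 6000000000000 * z.re ^ 12 := by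
  have h1 : ‖z‖ ^ 12 = (z.re ^ 2 + z.im ^ 2) ^ 6 := by
    have h : ‖z‖ ^ 2 = z.re ^ 2 + z.im ^ 2 := by
      rw [Complex.sq_norm, Complex.normSq_apply]
      ring
    calc ‖z‖ ^ 12 = (‖z‖ ^ 2) ^ 6 := by ring
      _ = _ := by rw [h]
  have h2 : (z ^ 12).re = (z.im ^ 2) ^ 6 - 66 * (z.re ^ 2 * (z.im ^ 2) ^ 5) + 495 * ((z.re ^ 2) ^ 2 * (z.im ^ 2) ^ 4) -
      924 * ((z.re ^ 2) ^ 3 * (z.im ^ 2) ^ 3) + 495 * ((z.re ^ 2) ^ 4 * (z.im ^ 2) ^ 2) -
      66 * ((z.re ^ 2) ^ 5 * z.im ^ 2) + (z.re ^ 2) ^ 6 := by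
    have h3 : z ^ 12 = ((z * z * z) * (z * z * z)) * ((z * z * z) * (z * z * z)) := by ring
    rw [h3]
    simp only [Complex.mul_re, Complex.mul_im]
    ring
  have h4 := poly92 (s := z.re ^ 2) (t := z.im ^ 2) (by positivity) (by positivity)
  rw [h1, h2]
  calc _ ≤ 6000000000000 * (z.re ^ 2) ^ 6 := h4
    _ = _ := by ring

private lemma riesz_re40 {h : ℝ × ℝ → ℂ} (hc : Continuous h) (h0 : ∫ c in Tq, (h c) ^ 12 = 0) :
    ∫ c in Tq, ‖h c‖ ^ 12 ≤ 6000000000000 * ∫ c in Tq, (h c).re ^ 12 := by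
  have hre : Continuous fun c => (h c).re := Complex.continuous_re.comp hc
  have c1 : Continuous fun c => ‖h c‖ ^ 12 := hc.norm.pow 12
  have c2 : Continuous fun c => ((h c) ^ 12).re := Complex.continuous_re.comp (hc.pow 12)
  have h1 : ∫ c in Tq, ((h c) ^ 12).re = 0 := by
    have h2 := re40 (fun c => (h c) ^ 12) (hc.pow 12)
    rw [h0] at h2
    exact h2
  have h2 : ∫ c in Tq, (‖h c‖ ^ 12 + -8 * ((h c) ^ 12).re) ≤ ∫ c in Tq, 6000000000000 * (h c).re ^ 12 :=
    mono40 (c1.add (continuous_const.mul c2)) (continuous_const.mul (hre.pow 12)) (fun c => pt40 (h c))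
  rw [add40 (fun c => ‖h c‖ ^ 12) (fun c => -8 * ((h c) ^ 12).re) c1 (continuous_const.mul c2),
    integral_const_mul, h1, mul_zero, add_zero, integral_const_mul] at h2
  exact h2

private lemma dt_neg40 (k : ℤ × ℤ) (c : ℝ × ℝ) : dt (-k) c = -dt k c := by
  unfold dt
  push_cast [Prod.fst_neg, Prod.snd_neg]
  ring

private lemma sum_neg40 (U : Finset (ℤ × ℤ)) (hU : ∀ k ∈ U, -k ∈ U) (f : ℤ × ℤ → ℂ) :
    ∑ k ∈ U, f (-k) = ∑ k ∈ U, f k := by
  refine Finset.sum_nbij' (fun k => -k) (fun k => -k) hU hU (fun k _ => neg_neg k)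
    (fun k _ => neg_neg k) (fun k _ => rfl)

private lemma tang40 (t c : ℝ) : 12 * c ^ 11 * t - 11 * c ^ 12 ≤ t ^ 12 := by
  have h6 : ∀ t c : ℝ, 6 * c ^ 5 * t - 5 * c ^ 6 ≤ t ^ 6 := by
    intro t c
    have h : t ^ 6 - (6 * c ^ 5 * t - 5 * c ^ 6) =
        (t - c) ^ 2 * ((t ^ 2 + c * t) ^ 2 + 2 * (t * c + c ^ 2) ^ 2 + 3 * (c ^ 2) ^ 2) := by ring
    have h2 : 0 ≤ (t - c) ^ 2 * ((t ^ 2 + c * t) ^ 2 + 2 * (t * c + c ^ 2) ^ 2 + 3 * (c ^ 2) ^ 2) := by
      positivity
    linarith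
  have h1 := h6 (t ^ 2) (c ^ 2)
  have h2 : 0 ≤ c ^ 10 * (t - c) ^ 2 := by positivity
  nlinarith

open Classical in
private lemma riesz_real40 {P : ℤ × ℤ → Prop} (hP : IsPos P) (U : Finset (ℤ × ℤ))
    (hU : ∀ k ∈ U, -k ∈ U) (α : ℤ × ℤ → ℂ) (hα : ∀ k, α (-k) = (starRingEnd ℂ) (α k)) :
    m12 (U.filter P) α ≤ 6000000000000 * ∫ c in Tq, (tp U α c).re ^ 12 := by
  obtain ⟨a0, ha0⟩ : ∃ a0 : ℂ, a0 = if (0 : ℤ × ℤ) ∈ U then α 0 else 0 := ⟨_, rfl⟩
  have hdec : ∀ c, tp U α c = a0 + tp (U.filter P) α c + (starRingEnd ℂ) (tp (U.filter P) α c) := by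
    intro c
    have h1 : ∀ k ∈ U, α k * ee (dt k c) = (if k = 0 then α k * ee (dt k c) else 0) +
        (if P k then α k * ee (dt k c) else 0) + (if P (-k) then α k * ee (dt k c) else 0) := by
      intro k _
      by_cases h0 : k = 0
      · subst h0
        rw [if_pos rfl, if_neg hP.zero, neg_zero, if_neg hP.zero, add_zero, add_zero]
      · rw [if_neg h0, zero_add]
        by_cases hk : P k
        · have hk' : ¬ P (-k) := fun h => hP.zero (by
            have := hP.add _ _ hk h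
            rwa [add_neg_cancel] at this)
          rw [if_pos hk, if_neg hk', add_zero]
        · have hk' : P (-k) := (hP.tri k h0).resolve_left hk
          rw [if_neg hk, if_pos hk', zero_add]
    have h2 : tp U α c = ∑ k ∈ U, ((if k = 0 then α k * ee (dt k c) else 0) +
        (if P k then α k * ee (dt k c) else 0) + (if P (-k) then α k * ee (dt k c) else 0)) :=
      Finset.sum_congr rfl h1
    rw [h2, Finset.sum_add_distrib, Finset.sum_add_distrib]
    congr 1
    · congr 1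
      · rw [Finset.sum_ite_eq' U (0 : ℤ × ℤ), ha0]
        split_ifs
        · have h3 : dt 0 c = 0 := by simp [dt]
          rw [h3, ee_zero, mul_one]
        · rfl
      · unfold tp
        rw [Finset.sum_filter]
    · have h3 : ∑ k ∈ U, (if P (-k) then α k * ee (dt k c) else 0) =
          ∑ k ∈ U, (fun k => if P k then (starRingEnd ℂ) (α k * ee (dt k c)) else 0) (-k) := by
        refine Finset.sum_congr rfl fun k _ => ?_
        show _ = if P (-k) then (starRingEnd ℂ) (α (-k) * ee (dt (-k) c)) else 0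
        rw [hα, dt_neg40, ee_neg, map_mul, Complex.conj_conj, Complex.conj_conj]
      rw [h3, sum_neg40 U hU (fun k => if P k then (starRingEnd ℂ) (α k * ee (dt k c)) else 0)]
      unfold tp
      rw [Finset.sum_filter, map_sum]
      refine Finset.sum_congr rfl fun k _ => ?_
      show (if P k then (starRingEnd ℂ) (α k * ee (dt k c)) else 0) = _
      split_ifs
      · rfl
      · rw [map_zero]
  have hcU := tp_cont U α
  have hcP := tp_cont (U.filter P) α
  have hreU : Continuous fun c => (tp U α c).re := Complex.continuous_re.comp hcU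
  -- the mean
  have hmean : ∫ c in Tq, (tp U α c).re = a0.re := by
    have h1 : ∫ c in Tq, tp U α c = a0 := by
      unfold tp
      rw [sum40 U (fun k c => α k * ee (dt k c)) (fun k => continuous_const.mul (ee_cont40 k))]
      simp only [integral_const_mul, ee_int]
      have h2 : ∀ k ∈ U, α k * (if k = 0 then (1 : ℂ) else 0) = if k = 0 then α k else 0 := by
        intro k _
        split_ifs
        · rw [mul_one]
        · rw [mul_zero]
      rw [Finset.sum_congr rfl h2, Finset.sum_ite_eq' U (0 : ℤ × ℤ), ha0]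
    have h2 := re40 _ hcU
    rw [h1] at h2
    exact h2
  have hX0 : ∫ c in Tq, (2 * tp (U.filter P) α c) ^ 12 = 0 := by
    have h1 : ∀ c, (2 * tp (U.filter P) α c) ^ 12 = 4096 * (tp (U.filter P) α c) ^ 12 := fun c => by ring
    simp only [h1]
    rw [integral_const_mul, pow_int40 hP _ (fun k hk => (Finset.mem_filter.1 hk).2), mul_zero]
  have h1 := riesz_re40 (h := fun c => 2 * tp (U.filter P) α c) (continuous_const.mul hcP) hX0
  have h2 : ∫ c in Tq, ‖2 * tp (U.filter P) α c‖ ^ 12 = 4096 * m12 (U.filter P) α := by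
    unfold m12
    rw [← integral_const_mul]
    congr 1
    funext c
    rw [norm_mul, mul_pow]
    norm_num
  have h3 : ∀ c, (2 * tp (U.filter P) α c).re = (tp U α c).re - a0.re := by
    intro c
    rw [hdec c]
    simp
    ring
  have h4 : ∫ c in Tq, (2 * tp (U.filter P) α c).re ^ 12 ≤ 4096 * ∫ c in Tq, (tp U α c).re ^ 12 := by
    have h5 : ∫ c in Tq, (2 * tp (U.filter P) α c).re ^ 12 ≤
        ∫ c in Tq, (2048 * (tp U α c).re ^ 12 + 2048 * a0.re ^ 12) := by
      refine mono40 ?_ ?_ fun c => ?_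
      · exact (Complex.continuous_re.comp (continuous_const.mul hcP)).pow 12
      · exact (continuous_const.mul (hreU.pow 12)).add continuous_const
      · rw [h3 c, sub_eq_add_neg]
        have h6 := Even.add_pow_le (a := (tp U α c).re) (b := -a0.re) (n := 12) (by decide)
        have h7 : (-a0.re) ^ 12 = a0.re ^ 12 := by ring
        rw [h7] at h6
        norm_num at h6
        linarith
    rw [add40 (fun c => 2048 * (tp U α c).re ^ 12) (fun _ => 2048 * a0.re ^ 12)
      (continuous_const.mul (hreU.pow 12)) continuous_const, integral_const_mul, const40] at h5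
    have h6 : a0.re ^ 12 ≤ ∫ c in Tq, (tp U α c).re ^ 12 := by
      have h7 : ∫ c in Tq, (12 * a0.re ^ 11 * (tp U α c).re + -(11 * a0.re ^ 12)) ≤
          ∫ c in Tq, (tp U α c).re ^ 12 :=
        mono40 ((continuous_const.mul hreU).add continuous_const) (hreU.pow 12)
          (fun c => by
            have := tang40 (tp U α c).re a0.re
            linarith)
      rw [add40 (fun c => 12 * a0.re ^ 11 * (tp U α c).re) (fun _ => -(11 * a0.re ^ 12))
        (continuous_const.mul hreU) continuous_const, integral_const_mul, const40, hmean] at h7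
      have h8 : 12 * a0.re ^ 11 * a0.re + -(11 * a0.re ^ 12) = a0.re ^ 12 := by ring
      rw [h8] at h7
      exact h7
    linarith
  rw [h2] at h1
  linarith

open Classical in
theorem riesz12_pos {P : ℤ × ℤ → Prop} (hP : IsPos P) (S : Finset (ℤ × ℤ)) (a : ℤ × ℤ → ℂ) :
    m12 (S.filter P) a ≤ 24 ^ 12 * m12 S a := by
  obtain ⟨U, hUdef⟩ : ∃ U : Finset (ℤ × ℤ), U = S ∪ S.image (fun k => -k) := ⟨_, rfl⟩
  have hU : ∀ k ∈ U, -k ∈ U := by
    intro k hk
    rw [hUdef, Finset.mem_union, Finset.mem_image] at hk ⊢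
    rcases hk with hk | ⟨l, hl, rfl⟩
    · exact Or.inr ⟨k, hk, rfl⟩
    · rw [neg_neg]
      exact Or.inl hl
  have hSU : S ⊆ U := by
    rw [hUdef]
    exact Finset.subset_union_left
  obtain ⟨b, hb⟩ : ∃ b : ℤ × ℤ → ℂ, b = fun k => if k ∈ S then a k else 0 := ⟨_, rfl⟩
  have hbS : ∀ k ∈ S, b k = a k := fun k hk => by rw [hb]; exact if_pos hk
  have hbS' : ∀ k, k ∉ S → b k = 0 := fun k hk => by rw [hb]; exact if_neg hk
  have htp : ∀ c, tp U b c = tp S a c := by
    intro c
    unfold tp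
    rw [← Finset.sum_subset hSU (fun k _ hk => by rw [hbS' k hk, zero_mul])]
    exact Finset.sum_congr rfl fun k hk => by rw [hbS k hk]
  have htpP : ∀ c, tp (U.filter P) b c = tp (S.filter P) a c := by
    intro c
    unfold tp
    rw [← Finset.sum_subset (Finset.filter_subset_filter P hSU) (fun k hk hk' => by
      have : k ∉ S := fun h => hk' (Finset.mem_filter.2 ⟨h, (Finset.mem_filter.1 hk).2⟩)
      rw [hbS' k this, zero_mul])]
    exact Finset.sum_congr rfl fun k hk => by rw [hbS k (Finset.mem_filter.1 hk).1]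
  -- the real and imaginary parts
  obtain ⟨α, hα⟩ : ∃ α : ℤ × ℤ → ℂ, α = fun k => (b k + (starRingEnd ℂ) (b (-k))) / 2 := ⟨_, rfl⟩
  obtain ⟨β, hβ⟩ : ∃ β : ℤ × ℤ → ℂ,
    β = fun k => -Complex.I * (b k - (starRingEnd ℂ) (b (-k))) / 2 := ⟨_, rfl⟩
  have hα' : ∀ k, α (-k) = (starRingEnd ℂ) (α k) := by
    intro k
    rw [hα]
    show (b (-k) + (starRingEnd ℂ) (b (- -k))) / 2 = (starRingEnd ℂ) ((b k + (starRingEnd ℂ) (b (-k))) / 2)
    rw [neg_neg, map_div₀, map_add, Complex.conj_conj, map_ofNat]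
    ring
  have hβ' : ∀ k, β (-k) = (starRingEnd ℂ) (β k) := by
    intro k
    rw [hβ]
    show -Complex.I * (b (-k) - (starRingEnd ℂ) (b (- -k))) / 2 =
      (starRingEnd ℂ) (-Complex.I * (b k - (starRingEnd ℂ) (b (-k))) / 2)
    rw [neg_neg, map_div₀, map_mul, map_sub, Complex.conj_conj, map_ofNat, map_neg, Complex.conj_I]
    ring
  have hab : ∀ k, b k = α k + Complex.I * β k := by
    intro k
    rw [hα, hβ]
    show b k = (b k + (starRingEnd ℂ) (b (-k))) / 2 +
      Complex.I * (-Complex.I * (b k - (starRingEnd ℂ) (b (-k))) / 2)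
    have hI : Complex.I * Complex.I = -1 := Complex.I_mul_I
    linear_combination (-(b k - (starRingEnd ℂ) (b (-k))) / 2) * (-hI)
  have hconj : ∀ c, ∑ k ∈ U, (starRingEnd ℂ) (b (-k)) * ee (dt k c) = (starRingEnd ℂ) (tp U b c) := by
    intro c
    unfold tp
    rw [map_sum, ← sum_neg40 U hU (fun k => (starRingEnd ℂ) (b k * ee (dt k c)))]
    refine Finset.sum_congr rfl fun k _ => ?_
    rw [map_mul, dt_neg40, ee_neg, Complex.conj_conj]
  have hreα : ∀ c, (tp U α c).re = (tp U b c).re := by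
    intro c
    have h1 : tp U α c = (tp U b c + (starRingEnd ℂ) (tp U b c)) / 2 := by
      rw [← hconj c]
      unfold tp
      rw [← Finset.sum_add_distrib, Finset.sum_div]
      refine Finset.sum_congr rfl fun k _ => ?_
      rw [hα]
      ring
    rw [h1, Complex.add_conj]
    simp
  have hreβ : ∀ c, (tp U β c).re = (tp U b c).im := by
    intro c
    have h1 : tp U β c = -Complex.I * (tp U b c - (starRingEnd ℂ) (tp U b c)) / 2 := by
      rw [← hconj c]
      unfold tp
      rw [← Finset.sum_sub_distrib, Finset.mul_sum, Finset.sum_div]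
      refine Finset.sum_congr rfl fun k _ => ?_
      rw [hβ]
      ring
    rw [h1, Complex.sub_conj]
    have h2 : -Complex.I * (((2 * (tp U b c).im : ℝ) : ℂ) * Complex.I) / 2 = (((tp U b c).im : ℝ) : ℂ) := by
      have hI : Complex.I * Complex.I = -1 := Complex.I_mul_I
      push_cast
      linear_combination (-((tp U b c).im : ℂ)) * hI
    rw [h2, Complex.ofReal_re]
  have hcb : Continuous (tp U b) := tp_cont U b
  have hA : m12 (U.filter P) α ≤ 6000000000000 * m12 U b := by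
    refine (riesz_real40 hP U hU α hα').trans (mul_le_mul_of_nonneg_left ?_ (by norm_num))
    unfold m12
    simp only [hreα]
    refine mono40 ((Complex.continuous_re.comp hcb).pow 12) (hcb.norm.pow 12) fun c => ?_
    have h1 := Complex.abs_re_le_norm (tp U b c)
    calc (tp U b c).re ^ 12 = |(tp U b c).re| ^ 12 := (Even.pow_abs (by decide) _).symm
      _ ≤ ‖tp U b c‖ ^ 12 := pow_le_pow_left₀ (abs_nonneg _) h1 12
  have hB : m12 (U.filter P) β ≤ 6000000000000 * m12 U b := by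
    refine (riesz_real40 hP U hU β hβ').trans (mul_le_mul_of_nonneg_left ?_ (by norm_num))
    unfold m12
    simp only [hreβ]
    refine mono40 ((Complex.continuous_im.comp hcb).pow 12) (hcb.norm.pow 12) fun c => ?_
    have h1 := Complex.abs_im_le_norm (tp U b c)
    calc (tp U b c).im ^ 12 = |(tp U b c).im| ^ 12 := (Even.pow_abs (by decide) _).symm
      _ ≤ ‖tp U b c‖ ^ 12 := pow_le_pow_left₀ (abs_nonneg _) h1 12
  have hcα := tp_cont (U.filter P) α
  have hcβ := tp_cont (U.filter P) β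
  have hsum : m12 (U.filter P) b ≤ 2048 * m12 (U.filter P) α + 2048 * m12 (U.filter P) β := by
    unfold m12
    rw [← integral_const_mul, ← integral_const_mul, ← add40
      (fun c => 2048 * ‖tp (U.filter P) α c‖ ^ 12) (fun c => 2048 * ‖tp (U.filter P) β c‖ ^ 12)
      (continuous_const.mul (hcα.norm.pow 12)) (continuous_const.mul (hcβ.norm.pow 12))]
    refine mono40 ((tp_cont _ _).norm.pow 12) ((continuous_const.mul (hcα.norm.pow 12)).add
      (continuous_const.mul (hcβ.norm.pow 12))) fun c => ?_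
    have h1 : tp (U.filter P) b c = tp (U.filter P) α c + Complex.I * tp (U.filter P) β c := by
      unfold tp
      rw [Finset.mul_sum, ← Finset.sum_add_distrib]
      refine Finset.sum_congr rfl fun k _ => ?_
      rw [hab k]
      ring
    rw [h1]
    have h2 : ‖tp (U.filter P) α c + Complex.I * tp (U.filter P) β c‖ ≤
        ‖tp (U.filter P) α c‖ + ‖tp (U.filter P) β c‖ := by
      refine (norm_add_le _ _).trans ?_
      rw [norm_mul, Complex.norm_I, one_mul]
    refine (pow_le_pow_left₀ (norm_nonneg _) h2 12).trans ?_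
    have h3 := add_pow_le (norm_nonneg (tp (U.filter P) α c)) (norm_nonneg (tp (U.filter P) β c)) 12
    norm_num at h3
    linarith
  have e1 : m12 (S.filter P) a = m12 (U.filter P) b := by
    unfold m12
    simp only [htpP]
  have e2 : m12 S a = m12 U b := by
    unfold m12
    simp only [htp]
  rw [e1, e2]
  have h0 := m12_nonneg U b
  norm_num
  linarith

end Pool.Agent.Helper92.DT
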